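import Pool.Agent.N144.EW.Sums

/-!
Project EW, part 6 (helper144): long excursions are unlikely.
-/

set_option autoImplicit false

namespace Pool.Agent.N144.EW

open H974 H12S H389NS H984N H984P H342P Finset
open Pool.Agent.N116.EW

/-- Mixed arms at an edge in the bulk of the rectangle have the exponent `5/4`. -/
def UB (X : Edg → ℕ → Set Edg → Set Edg → Prop) (b : Bool) (M t : ℝ) : Prop :=
  ∀ (n : ℕ) (η : ℝ), 1 ≤ n → 0 ≤ η → η ≤ 1 → η * (n : ℝ) ^ (3 / 4 : ℝ) ≤ t →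
  ∀ (D : Dm) (e : Edg) (m : ℕ), 1 ≤ m → m ≤ n → (m : ℤ) + 2 ≤ D.bd (src e) →
    PC b η D.edges (fun F G => X e m ↑F ↑G) ≤ M * (m : ℝ) ^ (-(5 / 4 : ℝ))

theorem blk_edges {D : Dm} {c : Vtx} {k : ℕ} (h : (k : ℤ) ≤ D.bd c) {g : Edg}
    (hg : g ∈ blk c k) : g ∈ D.edges := by
  obtain ⟨h1, h2, h3, h4⟩ := bd_le (D := D) (c := c)
  rw [blk_iff, sd_le_iff, sd_le_iff] at hg
  obtain ⟨x, y, _ | _⟩ := g
  · simp only [src_mk, tgt_false] at hg
    simp only [Dm.edges, mem_RE_false]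
    omega
  · simp only [src_mk, tgt_true] at hg
    simp only [Dm.edges, mem_RE_true]
    omega

theorem ub_XE {b : Bool} (h : S_XE b) : ∃ M t : ℝ, 0 < M ∧ 0 < t ∧ UB XE b M t := by
  obtain ⟨M, t, hM, ht, h⟩ := h
  refine ⟨M, t, hM, ht, fun n η h1 h2 h3 h4 D e m h5 h6 h7 => ?_⟩
  exact h n η h1 h2 h3 h4 e m h5 h6 D.edges fun g hg => blk_edges (by omega) hg

theorem ub_XD {b : Bool} (h : S_XD b) : ∃ M t : ℝ, 0 < M ∧ 0 < t ∧ UB XD b M t := by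
  obtain ⟨M, t, hM, ht, h⟩ := h
  refine ⟨M, t, hM, ht, fun n η h1 h2 h3 h4 D e m h5 h6 h7 => ?_⟩
  refine h n η h1 h2 h3 h4 e m h5 h6 D.edges fun g' hg' => ?_
  obtain ⟨g, rfl⟩ : ∃ g, dl g = g' := ⟨dl.symm g', dl.apply_symm_apply g'⟩
  rw [mem_dmp, Equiv.symm_apply_apply]
  exact blk_edges (k := m + 2) (by push_cast; omega) (dblk hg')

theorem four_pow : (4 : ℝ) ^ (5 / 4 : ℝ) ≤ 16 := by
  calc (4 : ℝ) ^ (5 / 4 : ℝ) ≤ 4 ^ (2 : ℝ) :=
        Real.rpow_le_rpow_of_exponent_le (by norm_num) (by norm_num)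
    _ = 16 := by norm_num

/-- `x ≥ y / 4` implies `x^(-5/4) ≤ 16 y^(-5/4)`. -/
theorem pow_cmp {x y : ℝ} (hy : 0 < y) (h : y ≤ 4 * x) :
    x ^ (-(5 / 4 : ℝ)) ≤ 16 * y ^ (-(5 / 4 : ℝ)) := by
  have h1 : x ^ (-(5 / 4 : ℝ)) ≤ (y / 4) ^ (-(5 / 4 : ℝ)) :=
    Real.rpow_le_rpow_of_nonpos (by positivity) (by linarith) (by norm_num)
  have h2 : (y / 4) ^ (-(5 / 4 : ℝ)) = 4 ^ (5 / 4 : ℝ) * y ^ (-(5 / 4 : ℝ)) := by
    rw [Real.div_rpow hy.le (by norm_num), Real.rpow_neg (by norm_num : (0 : ℝ) ≤ 4)]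
    field_simp
  rw [h2] at h1
  exact h1.trans (mul_le_mul_of_nonneg_right four_pow (by positivity))

theorem sd_nonneg (u v : Vtx) : 0 ≤ sd u v := le_trans (abs_nonneg _) (le_max_left _ _)

theorem qd_nonneg (D : Dm) (z : Vtx) : 0 ≤ qd D z := by
  obtain ⟨i, hi⟩ := qd_ex D z
  rw [hi]
  exact sd_nonneg _ _

/-- The bound for the arms near the boundary in terms of `min ρ q`. -/
theorem nx_cmp {C c : ℝ} (hC : 0 < C) (hc : 0 < c) {ρ q d : ℕ} (hd : 1 ≤ d) :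
    (d ≤ ⌊min (ρ : ℝ) (c * q)⌋₊ →
      C * ((d : ℝ) / ⌊min (ρ : ℝ) (c * q)⌋₊) ^ (1 / 3 : ℝ) ≤
        (C + 1) * (4 / min c 1) ^ (1 / 3 : ℝ) * ((d : ℝ) / (min ρ q + 1 : ℕ)) ^ (1 / 3 : ℝ)) ∧
    (¬ d ≤ ⌊min (ρ : ℝ) (c * q)⌋₊ →
      1 ≤ (C + 1) * (4 / min c 1) ^ (1 / 3 : ℝ) * ((d : ℝ) / (min ρ q + 1 : ℕ)) ^ (1 / 3 : ℝ)) := by
  set c' : ℝ := min c 1 with hc'
  have hc'0 : 0 < c' := lt_min hc one_pos
  have hc'1 : c' ≤ 1 := min_le_right _ _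
  have hd1 : (1 : ℝ) ≤ d := by exact_mod_cast hd
  set x : ℝ := min (ρ : ℝ) (c * q) with hx
  set μ : ℝ := ((min ρ q : ℕ) : ℝ) with hμ
  have hμ0 : 0 ≤ μ := by positivity
  have hx1 : c' * μ ≤ x := by
    rw [hx, le_min_iff]
    have h1 : μ ≤ ρ := by rw [hμ]; exact_mod_cast min_le_left _ _
    have h2 : μ ≤ q := by rw [hμ]; exact_mod_cast min_le_right _ _
    constructor
    · nlinarith
    · have h3 : c' ≤ c := min_le_left _ _
      have h4 : (0 : ℝ) ≤ q := by positivity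
      nlinarith
  have hx0 : 0 ≤ x := le_trans (by positivity) hx1
  have hcast : ((min ρ q + 1 : ℕ) : ℝ) = μ + 1 := Nat.cast_succ _
  rw [hcast]
  have hroot : ∀ {y : ℝ}, 0 ≤ y → (4 / c') ^ (1 / 3 : ℝ) * y ^ (1 / 3 : ℝ) =
      (4 / c' * y) ^ (1 / 3 : ℝ) := fun hy => (Real.mul_rpow (by positivity) hy).symm
  constructor
  · intro h
    set R : ℕ := ⌊x⌋₊ with hR
    have hR1 : (1 : ℝ) ≤ R := by
      have : 1 ≤ R := le_trans hd h
      exact_mod_cast this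
    have hRx : x < R + 1 := Nat.lt_floor_add_one x
    have h4R : c' * (μ + 1) ≤ 4 * R := by nlinarith
    have h5 : (d : ℝ) / R ≤ 4 / c' * (d / (μ + 1)) := by
      rw [div_mul_div_comm, div_le_div_iff₀ (by linarith) (by positivity)]
      nlinarith
    calc C * ((d : ℝ) / R) ^ (1 / 3 : ℝ)
        ≤ (C + 1) * (4 / c' * (d / (μ + 1))) ^ (1 / 3 : ℝ) :=
          mul_le_mul (by linarith) (Real.rpow_le_rpow (by positivity) h5 (by norm_num))
            (by positivity) (by linarith)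
      _ = (C + 1) * (4 / c') ^ (1 / 3 : ℝ) * ((d : ℝ) / (μ + 1)) ^ (1 / 3 : ℝ) := by
          rw [← hroot (by positivity)]; ring
  · intro h
    have h1 : x < d := by
      rw [not_le, Nat.floor_lt hx0] at h
      exact h
    have h2 : c' * (μ + 1) ≤ 4 * d := by nlinarith
    have h3 : 1 ≤ 4 / c' * (d / (μ + 1)) := by
      rw [div_mul_div_comm, one_le_div (by positivity)]
      exact h2
    calc (1 : ℝ) = 1 * 1 := by ring
      _ ≤ (C + 1) * (4 / c' * (d / (μ + 1))) ^ (1 / 3 : ℝ) :=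
          mul_le_mul (by linarith) (Real.one_le_rpow h3 (by norm_num)) (by norm_num)
            (by linarith)
      _ = (C + 1) * (4 / c') ^ (1 / 3 : ℝ) * ((d : ℝ) / (μ + 1)) ^ (1 / 3 : ℝ) := by
          rw [← hroot (by positivity)]; ring

/-- Comparison of the product of the two bounds with the weight. -/
theorem weight_cmp {D : Dm} {z : Vtx} {ρ : ℕ} (hρ : 1 ≤ ρ) {A B : ℝ} (hA : 0 ≤ A) (hB : 1 ≤ B) :
    A * ((min (D.bd z).toNat ρ + 1 : ℕ) : ℝ) ^ (-(5 / 4 : ℝ)) *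
      (if (D.bd z).toNat < ρ then
        B * (((D.bd z).toNat + 1 : ℕ) / (min ρ (qd D z).toNat + 1 : ℕ) : ℝ) ^ (1 / 3 : ℝ)
      else 1) ≤ A * B * WW D ρ z := by
  set j : ℕ := (D.bd z).toNat with hj
  set q : ℕ := (qd D z).toNat with hq
  have hρ0 : (0 : ℝ) < ρ := by exact_mod_cast hρ
  have e : WW D ρ z = if j < ρ then ff j * ((ρ : ℝ) ^ (-(1 / 3 : ℝ)) + gg q)
      else (ρ : ℝ) ^ (-(5 / 4 : ℝ)) := rfl
  rw [e]
  by_cases h : j < ρ
  · rw [if_pos h, if_pos h, min_eq_left h.le]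
    have hj0 : (0 : ℝ) < ((j + 1 : ℕ) : ℝ) := by positivity
    have hm0 : (0 : ℝ) < ((min ρ q + 1 : ℕ) : ℝ) := by positivity
    have h1 : (((j + 1 : ℕ) : ℝ) / ((min ρ q + 1 : ℕ) : ℝ)) ^ (1 / 3 : ℝ) =
        ((j + 1 : ℕ) : ℝ) ^ (1 / 3 : ℝ) * ((min ρ q + 1 : ℕ) : ℝ) ^ (-(1 / 3 : ℝ)) := by
      rw [Real.div_rpow hj0.le hm0.le, Real.rpow_neg hm0.le, div_eq_mul_inv]
    have h2 : ((j + 1 : ℕ) : ℝ) ^ (-(5 / 4 : ℝ)) * ((j + 1 : ℕ) : ℝ) ^ (1 / 3 : ℝ) = ff j := by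
      rw [← Real.rpow_add hj0]
      unfold ff
      push_cast
      norm_num
    have h3 : ((min ρ q + 1 : ℕ) : ℝ) ^ (-(1 / 3 : ℝ)) ≤ (ρ : ℝ) ^ (-(1 / 3 : ℝ)) + gg q := by
      have g0 := gg_nonneg q
      have g1 : (0 : ℝ) ≤ (ρ : ℝ) ^ (-(1 / 3 : ℝ)) := by positivity
      rcases le_total ρ q with h4 | h4
      · rw [min_eq_left h4]
        have : ((ρ + 1 : ℕ) : ℝ) ^ (-(1 / 3 : ℝ)) ≤ (ρ : ℝ) ^ (-(1 / 3 : ℝ)) :=
          Real.rpow_le_rpow_of_nonpos hρ0 (by push_cast; linarith) (by norm_num)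
        linarith
      · rw [min_eq_right h4]
        have : ((q + 1 : ℕ) : ℝ) ^ (-(1 / 3 : ℝ)) = gg q := by
          unfold gg
          push_cast
          rfl
        linarith
    rw [h1]
    have hff := ff_nonneg j
    calc A * ((j + 1 : ℕ) : ℝ) ^ (-(5 / 4 : ℝ)) *
        (B * (((j + 1 : ℕ) : ℝ) ^ (1 / 3 : ℝ) * ((min ρ q + 1 : ℕ) : ℝ) ^ (-(1 / 3 : ℝ))))
        = A * B * ((((j + 1 : ℕ) : ℝ) ^ (-(5 / 4 : ℝ)) * ((j + 1 : ℕ) : ℝ) ^ (1 / 3 : ℝ)) *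
            ((min ρ q + 1 : ℕ) : ℝ) ^ (-(1 / 3 : ℝ))) := by ring
      _ = A * B * (ff j * ((min ρ q + 1 : ℕ) : ℝ) ^ (-(1 / 3 : ℝ))) := by rw [h2]
      _ ≤ A * B * (ff j * ((ρ : ℝ) ^ (-(1 / 3 : ℝ)) + gg q)) :=
          mul_le_mul_of_nonneg_left (mul_le_mul_of_nonneg_left h3 hff) (by positivity)
  · rw [if_neg h, if_neg h, min_eq_right (not_lt.1 h), mul_one]
    have h1 : ((ρ + 1 : ℕ) : ℝ) ^ (-(5 / 4 : ℝ)) ≤ (ρ : ℝ) ^ (-(5 / 4 : ℝ)) :=
      Real.rpow_le_rpow_of_nonpos hρ0 (by push_cast; linarith) (by norm_num)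
    have h2 : (0 : ℝ) ≤ (ρ : ℝ) ^ (-(5 / 4 : ℝ)) := by positivity
    have h3 : A * ((ρ + 1 : ℕ) : ℝ) ^ (-(5 / 4 : ℝ)) ≤ A * (ρ : ℝ) ^ (-(5 / 4 : ℝ)) :=
      mul_le_mul_of_nonneg_left h1 hA
    have h4 : A * (ρ : ℝ) ^ (-(5 / 4 : ℝ)) ≤ A * B * (ρ : ℝ) ^ (-(5 / 4 : ℝ)) :=
      mul_le_mul_of_nonneg_right (le_mul_of_one_le_right hA hB) h2
    exact h3.trans h4

theorem union_le {ι : Type*} [DecidableEq ι] {p : Edg × Bool → ℝ} (hp : Ok p)
    (S : Finset (Edg × Bool)) (J : Finset ι) (A : ι → Finset (Edg × Bool) → Prop) :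
    Pr p S (fun F => ∃ j ∈ J, A j F) ≤ ∑ j ∈ J, Pr p S (A j) := by
  induction J using Finset.induction_on with
  | empty =>
    have : Pr p S (fun F => ∃ j ∈ (∅ : Finset ι), A j F) = 0 := by
      unfold Pr
      rw [Ex_congr (g := fun _ => 0) (fun F _ => ind_not_of (by simp)), Ex_const]
    rw [this]; simp
  | insert a J ha ih =>
    rw [Finset.sum_insert ha]
    have h1 : Pr p S (fun F => ∃ j ∈ insert a J, A j F) ≤
        Pr p S (fun F => A a F ∨ ∃ j ∈ J, A j F) := by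
      apply Pr_mono hp
      rintro F _ ⟨j, hj, hA⟩
      rw [Finset.mem_insert] at hj
      rcases hj with rfl | hj
      · exact Or.inl hA
      · exact Or.inr ⟨j, hj, hA⟩
    have h2 := Pr_or_le hp S (A a) (fun F => ∃ j ∈ J, A j F)
    linarith

/-- The union bound. -/
theorem bad_sum {X : Edg → ℕ → Set Edg → Set Edg → Prop} (hX : Loc X) {b : Bool} {M : ℝ}
    (hM : 0 < M) {C c : ℝ} (hC : 0 < C) (hc : 0 < c) {κ n η : ℝ} (hn : 1 ≤ n) {D : Dm}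
    (hs : D.Shape κ n) (hη0 : 0 ≤ η) (hη1 : η ≤ 1)
    (hXb : ∀ (e : Edg) (m : ℕ), 1 ≤ m → (m : ℤ) + 2 ≤ D.bd (src e) →
      PC b η D.edges (fun F G => X e m ↑F ↑G) ≤ M * (m : ℝ) ^ (-(5 / 4 : ℝ)))
    (hNX : ∀ (z : Vtx) (d R : ℕ), inR D.l D.r 0 D.h z → 1 ≤ d → D.bd z ≤ d → d ≤ R →
      (R : ℝ) ≤ c * qd D z →
      Pr (fun _ => (1 / 2 : ℝ)) D.edges (NX D z d R) ≤ C * ((d : ℝ) / R) ^ (1 / 3 : ℝ))
    {Bad : Finset Edg → Finset Edg → Prop} {ρ : ℕ} (hρ : 1 ≤ ρ) (hρn : (ρ : ℝ) ≤ n)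
    (hBad : ∀ F B G : Finset Edg, F ⊆ B → B ⊆ G → G ⊆ D.edges → Bad F G →
      ∃ e ∈ D.edges, e ∈ G ∧ e ∉ F ∧
        (∀ m : ℕ, 1 ≤ m → (m : ℤ) + 2 ≤ D.bd (src e) → m + 1 ≤ ρ → X e m ↑F ↑G) ∧
        (∀ d R : ℕ, 1 ≤ d → NX D (src e) d R B)) :
    PC b η D.edges Bad ≤ 16 * (M + 1) * ((C + 1) * (4 / min c 1) ^ (1 / 3 : ℝ)) * 1828 *
      (η * n ^ 2 * (ρ : ℝ) ^ (-(5 / 4 : ℝ))) := by
  have hok := cw_ok hη0 hη1
  set C1 : ℝ := (C + 1) * (4 / min c 1) ^ (1 / 3 : ℝ) with hC1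
  have hC11 : 1 ≤ C1 := by
    have h1 : 0 < min c 1 := lt_min hc one_pos
    have h2 : 1 ≤ 4 / min c 1 := by
      rw [one_le_div h1]
      have := min_le_right c 1
      linarith
    have h3 := Real.one_le_rpow h2 (by norm_num : (0 : ℝ) ≤ 1 / 3)
    rw [hC1]
    nlinarith
  -- parameters of an edge
  set j : Edg → ℕ := fun e => (D.bd (src e)).toNat with hj
  set q : Edg → ℕ := fun e => (qd D (src e)).toNat with hq
  set me : Edg → ℕ := fun e => min (j e - 2) (ρ - 1) with hme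
  set Re : Edg → ℕ := fun e => if j e < ρ then ⌊min (ρ : ℝ) (c * q e)⌋₊ else 0 with hRe
  have hbd0 : ∀ e ∈ D.edges, 0 ≤ D.bd (src e) := by
    intro e he
    obtain ⟨h1, h2⟩ := src_in he
    unfold Dm.bd
    refine le_min (le_min ?_ ?_) (le_min ?_ ?_) <;> omega
  have hbdj : ∀ e ∈ D.edges, ((j e : ℕ) : ℤ) = D.bd (src e) := fun e he =>
    Int.toNat_of_nonneg (hbd0 e he)
  have hqq : ∀ e, ((q e : ℕ) : ℤ) = qd D (src e) := fun e => Int.toNat_of_nonneg (qd_nonneg _ _)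
  -- the union bound
  have h1 : PC b η D.edges Bad ≤ Pr (cw η) (CE D.edges) (fun K => ∃ e ∈ D.edges, Flp b e K ∧
      (1 ≤ me e → X e (me e) ↑(lo b K) ↑(up b K)) ∧
      (j e + 1 ≤ Re e → NX D (src e) (j e + 1) (Re e) (ba K))) := by
    unfold PC
    apply Pr_mono hok
    intro K hK hb
    obtain ⟨e, he, h2, h3, h4, h5⟩ := hBad (lo b K) (ba K) (up b K) (lo_sub_ba b K)
      (ba_sub_up b K) (up_sub hK) hb
    refine ⟨e, he, ⟨h2, h3⟩, fun hm => h4 _ hm ?_ ?_, fun _ => h5 _ _ (by omega)⟩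
    · have := hbdj e he
      have h6 : me e ≤ j e - 2 := min_le_left _ _
      omega
    · have h6 : me e ≤ ρ - 1 := min_le_right _ _
      omega
  refine h1.trans ((union_le hok _ _ _).trans ?_)
  have h2 : ∀ e ∈ D.edges, Pr (cw η) (CE D.edges) (fun K => Flp b e K ∧
      (1 ≤ me e → X e (me e) ↑(lo b K) ↑(up b K)) ∧
      (j e + 1 ≤ Re e → NX D (src e) (j e + 1) (Re e) (ba K))) ≤
      η / 2 * (16 * (M + 1) * C1 * WW D ρ (src e)) := by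
    intro e he
    have hbj := hbdj e he
    have hmj : me e ≤ j e - 2 := min_le_left _ _
    have hmρ : me e ≤ ρ - 1 := min_le_right _ _
    refine (pr_three hX hη0 b he (m := me e) (d := j e + 1) (R := Re e)
      (a := 16 * (M + 1) * ((min (j e) ρ + 1 : ℕ) : ℝ) ^ (-(5 / 4 : ℝ)))
      (c := if j e < ρ then C1 * (((j e + 1 : ℕ) : ℝ) / ((min ρ (q e) + 1 : ℕ) : ℝ)) ^ (1 / 3 : ℝ)
        else 1) (fun _ => by omega) ?_ (by omega) ?_ ?_ ?_ ?_ hη1).trans ?_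
    · intro hm g hg
      exact blk_edges (k := me e + 2) (by push_cast; omega) hg
    · intro hm
      refine (hXb e (me e) hm (by omega)).trans ?_
      have h3 : ((min (j e) ρ + 1 : ℕ) : ℝ) ≤ 4 * (me e : ℝ) := by
        have : min (j e) ρ + 1 ≤ 4 * me e := by
          have h4 : me e = min (j e - 2) (ρ - 1) := rfl
          omega
        exact_mod_cast this
      have h4 := pow_cmp (by positivity) h3
      have h5 : (0 : ℝ) ≤ ((min (j e) ρ + 1 : ℕ) : ℝ) ^ (-(5 / 4 : ℝ)) := by positivity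
      nlinarith
    · intro hm
      have h3 : ((min (j e) ρ + 1 : ℕ) : ℝ) ≤ 4 * 1 := by
        have : min (j e) ρ + 1 ≤ 4 * 1 := by
          have h4 : me e = min (j e - 2) (ρ - 1) := rfl
          omega
        exact_mod_cast this
      have h4 := pow_cmp (by positivity) h3
      rw [Real.one_rpow] at h4
      have h5 : (0 : ℝ) ≤ ((min (j e) ρ + 1 : ℕ) : ℝ) ^ (-(5 / 4 : ℝ)) := by positivity
      nlinarith
    · intro hR
      by_cases hjρ : j e < ρ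
      · have hRe' : Re e = ⌊min (ρ : ℝ) (c * q e)⌋₊ := by simp only [hRe, if_pos hjρ]
        rw [hRe'] at hR ⊢
        rw [if_pos hjρ]
        have hcq : (0 : ℝ) ≤ min (ρ : ℝ) (c * q e) := le_min (by positivity) (by positivity)
        refine (hNX (src e) (j e + 1) _ (src_in he) (by omega) (by push_cast; omega) hR ?_).trans
          ((nx_cmp hC hc (by omega)).1 hR)
        refine (Nat.floor_le hcq).trans ((min_le_right _ _).trans (le_of_eq ?_))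
        rw [← hqq e]
        push_cast
        rfl
      · exfalso
        have hRe' : Re e = 0 := by simp only [hRe, if_neg hjρ]
        omega
    · intro hR
      by_cases hjρ : j e < ρ
      · have hRe' : Re e = ⌊min (ρ : ℝ) (c * q e)⌋₊ := by simp only [hRe, if_pos hjρ]
        rw [hRe'] at hR
        rw [if_pos hjρ]
        exact (nx_cmp hC hc (by omega)).2 hR
      · rw [if_neg hjρ]
    · refine mul_le_mul_of_nonneg_left ?_ (by positivity)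
      exact weight_cmp (D := D) (z := src e) hρ (by positivity) hC11
  refine (Finset.sum_le_sum h2).trans ?_
  rw [← Finset.mul_sum, ← Finset.mul_sum]
  have h3 := weight_sum hn hs hρ hρn
  have h4 : 0 ≤ 16 * (M + 1) * C1 := by positivity
  calc η / 2 * (16 * (M + 1) * C1 * ∑ e ∈ D.edges, WW D ρ (src e))
      ≤ η / 2 * (16 * (M + 1) * C1 * (3656 * (n ^ 2 * (ρ : ℝ) ^ (-(5 / 4 : ℝ))))) :=
        mul_le_mul_of_nonneg_left (mul_le_mul_of_nonneg_left h3 h4) (by positivity)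
    _ = 16 * (M + 1) * C1 * 1828 * (η * n ^ 2 * (ρ : ℝ) ^ (-(5 / 4 : ℝ))) := by ring

/-- The statement for one family of events, one value of `b`. -/
theorem one {X : Edg → ℕ → Set Edg → Set Edg → Prop} (hX : Loc X) {b : Bool} {M t : ℝ}
    (hM : 0 < M) (hU : UB X b M t) {C c : ℝ} (hC : 0 < C) (hc : 0 < c) {κ : ℝ}
    (hNX : ∀ (n : ℝ) (D : Dm), 1 ≤ n → D.Shape κ n → ∀ (z : Vtx) (d R : ℕ),
      inR D.l D.r 0 D.h z → 1 ≤ d → D.bd z ≤ d → d ≤ R → (R : ℝ) ≤ c * qd D z →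
      Pr (fun _ => (1 / 2 : ℝ)) D.edges (NX D z d R) ≤ C * ((d : ℝ) / R) ^ (1 / 3 : ℝ))
    {Bad : Dm → ℕ → Finset Edg → Finset Edg → Prop}
    (hBad : ∀ (D : Dm) (ρ : ℕ) (F B G : Finset Edg), D.Ok → F ⊆ B → B ⊆ G → G ⊆ D.edges →
      Bad D ρ F G → ∃ e ∈ D.edges, e ∈ G ∧ e ∉ F ∧
        (∀ m : ℕ, 1 ≤ m → (m : ℤ) + 2 ≤ D.bd (src e) → m + 1 ≤ ρ → X e m ↑F ↑G) ∧
        (∀ d R : ℕ, 1 ≤ d → NX D (src e) d R B))
    (hle : ∀ (D : Dm) (ρ : ℕ) (F G : Finset Edg), D.Ok → G ⊆ D.edges → Bad D ρ F G →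
      (ρ : ℤ) ≤ max (D.r - D.l + 1) (D.h + 1))
    (hmono : ∀ (D : Dm) (ρ ρ' : ℕ) (F G : Finset Edg), ρ' ≤ ρ → Bad D ρ F G → Bad D ρ' F G)
    {n : ℝ} {D : Dm} (hn : 1 ≤ n) (hs : D.Shape κ n) {η : ℝ} (hη0 : 0 ≤ η) (hη1 : η ≤ 1)
    (hηt : η * n ^ (3 / 4 : ℝ) ≤ t / 2) {ρ : ℕ} (hρ : 1 ≤ ρ) :
    PC b η D.edges (Bad D ρ) ≤ 16 * (16 * (M + 1) * ((C + 1) * (4 / min c 1) ^ (1 / 3 : ℝ)) * 1828) *
      (η * n ^ 2 * (ρ : ℝ) ^ (-(5 / 4 : ℝ))) := by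
  have hD := hs.ok
  have hok := cw_ok hη0 hη1
  have hmin : 0 < min c 1 := lt_min hc one_pos
  set A : ℝ := 16 * (M + 1) * ((C + 1) * (4 / min c 1) ^ (1 / 3 : ℝ)) * 1828 with hA
  have hA0 : 0 ≤ A := by positivity
  have hρ0 : (0 : ℝ) < ρ := by exact_mod_cast hρ
  by_cases hbig : (ρ : ℝ) ≤ n + 1
  · -- a smaller radius
    have hfl1 : 1 ≤ ⌊n⌋₊ := Nat.le_floor (by exact_mod_cast hn)
    set ρ' : ℕ := min ρ ⌊n⌋₊ with hρ'
    have hρ'1 : 1 ≤ ρ' := le_min hρ hfl1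
    have hρ'n : (ρ' : ℝ) ≤ n := by
      have h1 : (ρ' : ℝ) ≤ (⌊n⌋₊ : ℝ) := by exact_mod_cast min_le_right _ _
      exact h1.trans (Nat.floor_le (by linarith))
    have h4 : (ρ : ℝ) ≤ 4 * ρ' := by
      rcases min_choice ρ ⌊n⌋₊ with h | h
      · rw [hρ', h]; linarith
      · rw [hρ', h]
        have h5 := Nat.lt_floor_add_one n
        have h6 : (1 : ℝ) ≤ ⌊n⌋₊ := by exact_mod_cast hfl1
        linarith
    have hpow := pow_cmp hρ0 h4
    have h7 : PC b η D.edges (Bad D ρ) ≤ PC b η D.edges (Bad D ρ') := by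
      unfold PC
      exact Pr_mono hok fun K _ h => hmono D ρ ρ' _ _ (min_le_left _ _) h
    have h8 := bad_sum hX hM hC hc hn hs hη0 hη1 (b := b) (fun e m hm hme => by
      have hN1 : 1 ≤ ⌈n⌉₊ := Nat.one_le_ceil_iff.2 (by linarith)
      have hmn : m ≤ ⌈n⌉₊ := by
        have h9 : (m : ℝ) ≤ n := by
          obtain ⟨_, _, b3, b4⟩ := bd_le (D := D) (c := src e)
          have h10 : (m : ℤ) ≤ D.h := by omega
          have h11 : ((m : ℤ) : ℝ) ≤ (D.h : ℝ) := by exact_mod_cast h10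
          have := hs.h_le
          push_cast at h11
          linarith
        have : (m : ℝ) ≤ (⌈n⌉₊ : ℝ) := h9.trans (Nat.le_ceil n)
        exact_mod_cast this
      have hηn : η * ((⌈n⌉₊ : ℕ) : ℝ) ^ (3 / 4 : ℝ) ≤ t := by
        have h9 : ((⌈n⌉₊ : ℕ) : ℝ) ≤ 2 * n := by
          have := Nat.ceil_lt_add_one (by linarith : 0 ≤ n)
          linarith
        have h10 : ((⌈n⌉₊ : ℕ) : ℝ) ^ (3 / 4 : ℝ) ≤ 2 * n ^ (3 / 4 : ℝ) := by
          calc ((⌈n⌉₊ : ℕ) : ℝ) ^ (3 / 4 : ℝ) ≤ (2 * n) ^ (3 / 4 : ℝ) :=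
                Real.rpow_le_rpow (by positivity) h9 (by norm_num)
            _ = 2 ^ (3 / 4 : ℝ) * n ^ (3 / 4 : ℝ) :=
                Real.mul_rpow (by norm_num) (by linarith)
            _ ≤ 2 * n ^ (3 / 4 : ℝ) := by
                refine mul_le_mul_of_nonneg_right ?_ (by positivity)
                calc (2 : ℝ) ^ (3 / 4 : ℝ) ≤ 2 ^ (1 : ℝ) :=
                      Real.rpow_le_rpow_of_exponent_le (by norm_num) (by norm_num)
                  _ = 2 := Real.rpow_one 2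
        have h11 := mul_le_mul_of_nonneg_left h10 hη0
        linarith
      exact hU ⌈n⌉₊ η hN1 hη0 hη1 hηn D e m hm hmn hme)
      (hNX n D hn hs) hρ'1 hρ'n
      (fun F B G h1 h2 h3 h4 => hBad D ρ' F B G hD h1 h2 h3 h4)
    refine h7.trans (h8.trans ?_)
    rw [← hA]
    have h9 : 0 ≤ A * (η * n ^ 2) := by positivity
    calc A * (η * n ^ 2 * (ρ' : ℝ) ^ (-(5 / 4 : ℝ)))
        = A * (η * n ^ 2) * (ρ' : ℝ) ^ (-(5 / 4 : ℝ)) := by ring
      _ ≤ A * (η * n ^ 2) * (16 * (ρ : ℝ) ^ (-(5 / 4 : ℝ))) :=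
          mul_le_mul_of_nonneg_left hpow h9
      _ = 16 * A * (η * n ^ 2 * (ρ : ℝ) ^ (-(5 / 4 : ℝ))) := by ring
  · -- no excursion is so long
    have h1 : PC b η D.edges (Bad D ρ) = 0 := by
      unfold PC Pr
      rw [Ex_congr (g := fun _ => 0) (fun K hK => ?_), Ex_const]
      apply ind_not_of
      intro h
      have h2 := hle D ρ _ _ hD (up_sub hK) h
      apply hbig
      have h3 : ((ρ : ℤ) : ℝ) ≤ ((max (D.r - D.l + 1) (D.h + 1) : ℤ) : ℝ) := by exact_mod_cast h2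
      have h4 := hs.w_le
      have h5 := hs.h_le
      rcases max_choice (D.r - D.l + 1) (D.h + 1) with h6 | h6
      · rw [h6] at h3
        push_cast at h3 h4
        linarith
      · rw [h6] at h3
        push_cast at h3
        linarith
    rw [h1]
    positivity

/-- **EW6**: long excursions are unlikely. -/
theorem sum (h1 : ∀ b, S_XE b) (h2 : ∀ b, S_XD b) (h3 : S_NX) : S_SUM := by
  intro κ hκ
  obtain ⟨C, c, hC, hc, hNX⟩ := h3 κ hκ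
  have e1 : ∀ b, ∃ M t : ℝ, 0 < M ∧ 0 < t ∧ UB XE b M t := fun b => ub_XE (h1 b)
  have e2 : ∀ b, ∃ M t : ℝ, 0 < M ∧ 0 < t ∧ UB XD b M t := fun b => ub_XD (h2 b)
  choose M1 t1 hM1 ht1 hU1 using e1
  choose M2 t2 hM2 ht2 hU2 using e2
  have hmin : 0 < min c 1 := lt_min hc one_pos
  set Q : ℝ → ℝ := fun M => 16 * (16 * (M + 1) * ((C + 1) * (4 / min c 1) ^ (1 / 3 : ℝ)) * 1828)
    with hQ
  have hQ0 : ∀ M, 0 < M → 0 < Q M := by
    intro M hM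
    rw [hQ]
    positivity
  set T : ℝ := min (min (t1 true) (t1 false)) (min (t2 true) (t2 false)) with hT
  have hT0 : 0 < T := lt_min (lt_min (ht1 _) (ht1 _)) (lt_min (ht2 _) (ht2 _))
  have hTt1 : ∀ b, T ≤ t1 b := by
    intro b
    cases b
    · exact (min_le_left _ _).trans (min_le_right _ _)
    · exact (min_le_left _ _).trans (min_le_left _ _)
  have hTt2 : ∀ b, T ≤ t2 b := by
    intro b
    cases b
    · exact (min_le_right _ _).trans (min_le_right _ _)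
    · exact (min_le_right _ _).trans (min_le_left _ _)
  have p1 := hQ0 _ (hM1 true)
  have p2 := hQ0 _ (hM1 false)
  have p3 := hQ0 _ (hM2 true)
  have p4 := hQ0 _ (hM2 false)
  refine ⟨Q (M1 true) + Q (M1 false) + Q (M2 true) + Q (M2 false), T / 2, by linarith,
    by linarith, fun n D hn hs η hη0 hη1 hηt ρ hρ b => ?_⟩
  have hw : 0 ≤ η * n ^ 2 * (ρ : ℝ) ^ (-(5 / 4 : ℝ)) := by positivity
  constructor
  · have h := one (b := b) loc_XE (hM1 b) (hU1 b) hC hc hNX (Bad := BadV)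
      (fun D ρ F B G hD h1 h2 h3 h4 => badV_sub hD h1 h2 h3 h4)
      (fun D ρ F G hD h1 h2 => badV_le hD h1 h2)
      (fun D ρ ρ' F G h1 h2 => badV_mono h1 h2) hn hs hη0 hη1
      (hηt.trans (by have := hTt1 b; linarith)) hρ
    refine h.trans (mul_le_mul_of_nonneg_right ?_ hw)
    change Q (M1 b) ≤ _
    cases b <;> linarith
  · have h := one (b := b) loc_XD (hM2 b) (hU2 b) hC hc hNX (Bad := BadW)
      (fun D ρ F B G hD h1 h2 h3 h4 => badW_sub hD h1 h2 h3 h4)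
      (fun D ρ F G _ h1 h2 => badW_le h1 h2)
      (fun D ρ ρ' F G h1 h2 => badW_mono h1 h2) hn hs hη0 hη1
      (hηt.trans (by have := hTt2 b; linarith)) hρ
    refine h.trans (mul_le_mul_of_nonneg_right ?_ hw)
    change Q (M2 b) ≤ _
    cases b <;> linarith

end Pool.Agent.N144.EW
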