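import Pool.Agent.N116.EW.Stm

/-!
Project EW, part 6 (helper144): deterministic part. A long excursion implies mixed arms at a flipped
edge up to the distance to the boundary, and arms near the boundary.
-/

set_option autoImplicit false

namespace Pool.Agent.N144.EW

open H974 H12S H389NS H984N H984P H342P Finset
open Pool.Agent.N116.EW

/-! ### Distances -/

theorem sd_le_iff {u c : Vtx} {m : ℤ} : sd u c ≤ m ↔
    (-m ≤ u.1 - c.1 ∧ u.1 - c.1 ≤ m) ∧ (-m ≤ u.2 - c.2 ∧ u.2 - c.2 ≤ m) := by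
  unfold sd
  rw [max_le_iff, abs_le, abs_le]

theorem le_sd_iff {u c : Vtx} {m : ℤ} : m ≤ sd u c ↔
    (m ≤ u.1 - c.1 ∨ m ≤ -(u.1 - c.1)) ∨ (m ≤ u.2 - c.2 ∨ m ≤ -(u.2 - c.2)) := by
  unfold sd
  rw [le_max_iff, le_abs, le_abs]

theorem sd_lt_iff {u c : Vtx} {m : ℤ} : sd u c < m ↔
    (-m < u.1 - c.1 ∧ u.1 - c.1 < m) ∧ (-m < u.2 - c.2 ∧ u.2 - c.2 < m) := by
  unfold sd
  rw [max_lt_iff, abs_lt, abs_lt]

theorem blk_iff {e : Edg} {c : Vtx} {m : ℕ} :
    e ∈ blk c m ↔ sd (src e) c ≤ m ∧ sd (tgt e) c ≤ m := by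
  obtain ⟨x, y, _ | _⟩ := e
  · simp only [blk, mem_RE_false, sd_le_iff, src_mk, tgt_false]
    omega
  · simp only [blk, mem_RE_true, sd_le_iff, src_mk, tgt_true]
    omega

theorem bdB_iff {u c : Vtx} {m : ℕ} (hm : sd u c ≤ m) (hm' : (m : ℤ) ≤ sd u c) : u ∈ bdB c m := by
  rw [sd_le_iff] at hm
  rw [le_sd_iff] at hm'
  refine ⟨abs_le.2 hm.1, abs_le.2 hm.2, ?_⟩
  rcases hm' with (h | h) | (h | h)
  · left
    exact le_antisymm (abs_le.2 hm.1) (h.trans (le_abs_self _))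
  · left
    exact le_antisymm (abs_le.2 hm.1) (h.trans (neg_le_abs _))
  · right
    exact le_antisymm (abs_le.2 hm.2) (h.trans (le_abs_self _))
  · right
    exact le_antisymm (abs_le.2 hm.2) (h.trans (neg_le_abs _))

/-! ### Paths and boxes -/

theorem exitBox {H : Set Edg} {c : Vtx} {m : ℕ} {x w : Vtx} (hw : (m : ℤ) ≤ sd w c)
    (h : Reach H x w) : sd x c ≤ m → ∃ w' ∈ bdB c m, Reach (H ∩ ↑(blk c m)) x w' := by
  induction h using Relation.ReflTransGen.head_induction_on with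
  | refl => intro hx; exact ⟨w, bdB_iff hx hw, Reach.refl _ _⟩
  | @head x x' hxx' _ ih =>
    intro hx
    by_cases hb : (m : ℤ) ≤ sd x c
    · exact ⟨x, bdB_iff hx hb, Reach.refl _ _⟩
    · have hx' : sd x' c ≤ m := by
        rw [not_le, sd_lt_iff] at hb
        rw [sd_le_iff]
        obtain ⟨⟨a, b, _ | _⟩, _, h | h⟩ := hxx' <;>
        · simp only [src_mk, tgt_false, tgt_true] at h
          obtain ⟨h1, h2⟩ := h
          subst h1; subst h2
          simp only at hb ⊢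
          omega
      obtain ⟨w', hw'1, hw'2⟩ := ih hx'
      refine ⟨w', hw'1, Relation.ReflTransGen.head ?_ hw'2⟩
      obtain ⟨g, hg, hcase⟩ := hxx'
      refine ⟨g, ⟨hg, ?_⟩, hcase⟩
      rw [Finset.mem_coe, blk_iff]
      rcases hcase with ⟨h1, h2⟩ | ⟨h1, h2⟩
      · rw [h1, h2]; exact ⟨hx, hx'⟩
      · rw [h1, h2]; exact ⟨hx', hx⟩

theorem lastBox {H : Set Edg} {c : Vtx} {d : ℕ} {x w : Vtx} (hx : sd x c ≤ d)
    (h : Reach H x w) : ∃ u, sd u c ≤ d ∧ Reach (H \ ↑(blk c d)) u w := by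
  induction h with
  | refl => exact ⟨x, hx, Reach.refl _ _⟩
  | @tail w w' _ hs ih =>
    obtain ⟨g, hg, hcase⟩ := hs
    by_cases hb : g ∈ blk c d
    · refine ⟨w', ?_, Reach.refl _ _⟩
      rw [blk_iff] at hb
      rcases hcase with ⟨h1, h2⟩ | ⟨h1, h2⟩
      · rw [← h2]; exact hb.2
      · rw [← h1]; exact hb.1
    · obtain ⟨u, hu1, hu2⟩ := ih
      exact ⟨u, hu1, hu2.tail ⟨g, ⟨hg, hb⟩, hcase⟩⟩

theorem dface_near {e : Edg} {c : Vtx} {d : ℤ} (h1 : sd (src e) c ≤ d) (h2 : sd (tgt e) c ≤ d) :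
    sd (dsrc e) c ≤ d + 1 ∧ sd (dtgt e) c ≤ d + 1 := by
  obtain ⟨x, y, _ | _⟩ := e
  · simp only [sd_le_iff, src_mk, tgt_false, dsrc_false, dtgt_mk] at h1 h2 ⊢
    omega
  · simp only [sd_le_iff, src_mk, tgt_true, dsrc_true, dtgt_mk] at h1 h2 ⊢
    omega

theorem lastBoxD {H : Set Edg} {c : Vtx} {d : ℕ} {x w : Vtx} (hx : sd x c ≤ d + 1)
    (h : DReach H x w) : ∃ u, sd u c ≤ d + 1 ∧ DReach (H \ ↑(blk c d)) u w := by
  induction h with
  | refl => exact ⟨x, hx, DReach.refl _ _⟩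
  | @tail w w' _ hs ih =>
    obtain ⟨g, hg, hcase⟩ := hs
    by_cases hb : g ∈ blk c d
    · refine ⟨w', ?_, DReach.refl _ _⟩
      rw [blk_iff] at hb
      have h3 := dface_near hb.1 hb.2
      rcases hcase with ⟨h1, h2⟩ | ⟨h1, h2⟩
      · rw [← h2]; exact h3.2
      · rw [← h1]; exact h3.1
    · obtain ⟨u, hu1, hu2⟩ := ih
      exact ⟨u, hu1, hu2.tail ⟨g, ⟨hg, hb⟩, hcase⟩⟩

theorem firstOut {H : Set Edg} {z x w : Vtx} {R : ℤ} (hw : R ≤ sd w z) (h : Reach H x w) :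
    ∃ w', R ≤ sd w' z ∧ Reach (H ∩ {e | sd (src e) z < R ∨ sd (tgt e) z < R}) x w' := by
  induction h using Relation.ReflTransGen.head_induction_on with
  | refl => exact ⟨w, hw, Reach.refl _ _⟩
  | @head x x' hxx' _ ih =>
    by_cases hb : R ≤ sd x z
    · exact ⟨x, hb, Reach.refl _ _⟩
    · obtain ⟨w', hw'1, hw'2⟩ := ih
      refine ⟨w', hw'1, Relation.ReflTransGen.head ?_ hw'2⟩
      obtain ⟨g, hg, hcase⟩ := hxx'
      refine ⟨g, ⟨hg, ?_⟩, hcase⟩
      rw [not_le] at hb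
      rcases hcase with ⟨h1, h2⟩ | ⟨h1, h2⟩
      · left; rw [h1]; exact hb
      · right; rw [h2]; exact hb

/-! ### The rectangle -/

theorem cfg_mono {D : Dm} {F G : Finset Edg} (h : F ⊆ G) : D.cfg F ⊆ D.cfg G :=
  Set.union_subset_union_left _ (by exact_mod_cast h)

theorem clu_mono {D : Dm} {F G : Finset Edg} (h : F ⊆ G) : D.clu F ⊆ D.clu G :=
  fun _ hv => Reach.mono (cfg_mono h) hv

theorem dclu_anti {D : Dm} {F G : Finset Edg} (h : F ⊆ G) : D.dclu G ⊆ D.dclu F := by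
  rintro f ⟨g, hg, hgf⟩
  exact ⟨g, hg, hgf.mono (Set.sdiff_subset_sdiff_right (cfg_mono h))⟩

theorem bd_wir {D : Dm} {e : Edg} (h : e ∈ D.wir) : D.bd (src e) ≤ 0 := by
  obtain ⟨x, y, b⟩ := e
  unfold Dm.bd
  simp only [src_mk]
  rcases h with ⟨_, h, _⟩ | ⟨_, h, _⟩ | ⟨_, h, _⟩ <;> simp only at h <;> subst h
  · exact (min_le_right _ _).trans ((min_le_right _ _).trans (by simp))
  · exact (min_le_left _ _).trans ((min_le_left _ _).trans (by simp))
  · exact (min_le_right _ _).trans ((min_le_left _ _).trans (by simp))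

theorem bd_near {D : Dm} {u c : Vtx} {m : ℤ} (h : sd u c ≤ m) : D.bd c - m ≤ D.bd u := by
  rw [sd_le_iff] at h
  unfold Dm.bd
  have h1 := min_le_left (min (c.1 - D.l) (D.r - c.1)) (min c.2 (D.h - c.2))
  have h2 := min_le_right (min (c.1 - D.l) (D.r - c.1)) (min c.2 (D.h - c.2))
  have h3 := min_le_left (c.1 - D.l) (D.r - c.1)
  have h4 := min_le_right (c.1 - D.l) (D.r - c.1)
  have h5 := min_le_left c.2 (D.h - c.2)
  have h6 := min_le_right c.2 (D.h - c.2)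
  refine le_min (le_min ?_ ?_) (le_min ?_ ?_) <;> omega

theorem bd_le {D : Dm} {c : Vtx} : D.bd c ≤ c.1 - D.l ∧ D.bd c ≤ D.r - c.1 ∧ D.bd c ≤ c.2 ∧
    D.bd c ≤ D.h - c.2 := by
  unfold Dm.bd
  exact ⟨(min_le_left _ _).trans (min_le_left _ _), (min_le_left _ _).trans (min_le_right _ _),
    (min_le_right _ _).trans (min_le_left _ _), (min_le_right _ _).trans (min_le_right _ _)⟩

theorem edges_of_bd {D : Dm} {g : Edg} (h : 1 ≤ D.bd (src g)) : g ∈ D.edges := by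
  obtain ⟨h1, h2, h3, h4⟩ := bd_le (D := D) (c := src g)
  obtain ⟨x, y, _ | _⟩ := g
  · simp only [src_mk] at h h1 h2 h3 h4
    simp only [Dm.edges, mem_RE_false]
    omega
  · simp only [src_mk] at h h1 h2 h3 h4
    simp only [Dm.edges, mem_RE_true]
    omega

theorem src_in {D : Dm} {e : Edg} (h : e ∈ D.edges) : inR D.l D.r 0 D.h (src e) := by
  obtain ⟨x, y, _ | _⟩ := e
  · simp only [Dm.edges, mem_RE_false] at h
    simp only [inR, src_mk]
    omega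
  · simp only [Dm.edges, mem_RE_true] at h
    simp only [inR, src_mk]
    omega

theorem end_near {e : Edg} {x : Vtx} (h : x = src e ∨ x = tgt e) : sd x (src e) ≤ 1 := by
  obtain ⟨a, b, _ | _⟩ := e <;> rcases h with rfl | rfl <;>
  · simp only [sd_le_iff, src_mk, tgt_false, tgt_true]
    omega

theorem face_near {e : Edg} {y : Vtx} (h : y = dsrc e ∨ y = dtgt e) :
    sd y (src e) ≤ 1 ∧ sd y (dsrc e) ≤ 1 := by
  obtain ⟨a, b, _ | _⟩ := e <;> rcases h with rfl | rfl <;>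
  · simp only [sd_le_iff, src_mk, dsrc_false, dsrc_true, dtgt_mk]
    omega

theorem zero_far {D : Dm} {c : Vtx} {m : ℤ} (h : m ≤ D.bd c) : m ≤ sd (0, 0) c := by
  rw [le_sd_iff]
  obtain ⟨_, _, h3, _⟩ := bd_le (D := D) (c := c)
  right; right
  simp only
  omega

theorem outer_far {D : Dm} {c f : Vtx} (hf : f ∈ D.outer) {m : ℤ} (h : m ≤ D.bd c) :
    m ≤ sd f c := by
  rw [le_sd_iff]
  obtain ⟨_, h2, h3, h4⟩ := bd_le (D := D) (c := c)
  rcases hf with ⟨hf, _⟩ | ⟨hf, _⟩ | ⟨hf, _⟩ <;> omega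

/-- The arms near the boundary. -/
theorem nx_of {D : Dm} (hD : D.Ok) {B : Finset Edg} {z x y : Vtx} (hx : sd x z ≤ 1)
    (hy : sd y z ≤ 1) (hxc : x ∈ D.clu B) (hyc : y ∈ D.dclu B) {d R : ℕ} (hd : 1 ≤ d) :
    NX D z d R B := by
  constructor
  · intro hfar
    have h0 : ((0, 0) : Vtx) ∈ wv D := by
      refine ⟨(-1, 0, true), ?_, Or.inr ?_⟩
      · right; right
        exact ⟨rfl, rfl, by have := hD.l_neg; simp only; omega, by norm_num⟩
      · simp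
    have hxc' : Reach (D.cfg B) x (0, 0) := Reach.symm hxc
    obtain ⟨w, hw1, hw2⟩ := firstOut (hfar _ h0) hxc'
    have hw3 : Reach (↑B : Set Edg) x w := by
      refine hw2.mono ?_
      rintro g ⟨hg1 | hg1, hg2⟩
      · exact hg1
      · exfalso
        have h1 := hfar (src g) ⟨g, hg1, Or.inl rfl⟩
        have h2 := hfar (tgt g) ⟨g, hg1, Or.inr rfl⟩
        rcases hg2 with h | h
        · exact absurd h (not_lt.2 h1)
        · exact absurd h (not_lt.2 h2)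
    obtain ⟨u, hu1, hu2⟩ := lastBox (c := z) (d := d) (hx.trans (by exact_mod_cast hd)) hw3
    exact ⟨u, w, hu1, hw1, hu2⟩
  · intro hfar
    obtain ⟨g, hg, hgy⟩ := hyc
    obtain ⟨u, hu1, hu2⟩ := lastBoxD (c := z) (d := d) (by have : (0 : ℤ) ≤ d := by positivity
                                                           omega) hgy.symm
    refine ⟨u, g, hu1, hfar g hg, hu2.mono ?_⟩
    rintro e ⟨⟨h1, h2⟩, h3⟩
    exact ⟨h1, h2, h3⟩

theorem badV_sub {D : Dm} (hD : D.Ok) {ρ : ℕ} {F B G : Finset Edg} (hFB : F ⊆ B) (hBG : B ⊆ G)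
    (hG : G ⊆ D.edges) (h : BadV D ρ F G) :
    ∃ e ∈ D.edges, e ∈ G ∧ e ∉ F ∧
      (∀ m : ℕ, 1 ≤ m → (m : ℤ) + 2 ≤ D.bd (src e) → m + 1 ≤ ρ → XE e m ↑F ↑G) ∧
      (∀ d R : ℕ, 1 ≤ d → NX D (src e) d R B) := by
  obtain ⟨e, heG, heF, x, v, y, hxv, hy, hx, hv, hyc, w, hw, hvw⟩ := h
  refine ⟨e, hG heG, heG, fun h => heF (Or.inl h), ?_, ?_⟩
  · intro m hm hmj hmρ
    have hm0 : (1 : ℤ) ≤ m := by exact_mod_cast hm
    have hnw : ∀ g ∈ blk (src e) m, g ∉ D.wir := by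
      intro g hg hgw
      have h1 := bd_wir hgw
      have h2 := bd_near (D := D) (blk_iff.1 hg).1
      omega
    have hx1 : sd x (src e) ≤ 1 := by
      rcases hxv with ⟨h, _⟩ | ⟨h, _⟩
      · exact end_near (Or.inl h)
      · exact end_near (Or.inr h)
    have hv1 : sd v (src e) ≤ 1 := by
      rcases hxv with ⟨_, h⟩ | ⟨_, h⟩
      · exact end_near (Or.inr h)
      · exact end_near (Or.inl h)
    have hsub : CB (src e) m (↑F \ {e}) x ⊆ D.clu F := by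
      intro u hu
      have h1 : Reach (D.cfg F) x u := by
        refine Reach.mono ?_ hu
        rintro g ⟨⟨h1, _⟩, _⟩
        exact Or.inl h1
      exact Reach.trans hx h1
    refine ⟨x, v, hxv, fun h => hv (hsub h), ?_, ?_⟩
    · obtain ⟨w', hw'1, hw'2⟩ := exitBox (c := src e) (m := m) (zero_far (D := D) (by omega))
        (Reach.symm hx) (hx1.trans hm0)
      refine ⟨w', hw'1, ?_⟩
      refine Reach.mono ?_ hw'2
      rintro g ⟨h1 | h1, h2⟩
      · refine ⟨⟨h1, ?_⟩, h2⟩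
        rintro rfl
        exact heF (Or.inl h1)
      · exact absurd h1 (hnw g h2)
    · have hwc : (m : ℤ) ≤ sd w (src e) := by
        rw [le_sd_iff] at hw ⊢
        rw [sd_le_iff] at hv1
        have : (m : ℤ) + 1 ≤ ρ := by exact_mod_cast hmρ
        omega
      obtain ⟨w', hw'1, hw'2⟩ := exitBox (c := src e) (m := m) hwc hvw (hv1.trans hm0)
      refine ⟨w', hw'1, Reach.mono ?_ hw'2⟩
      rintro g ⟨⟨h1, h2, h3⟩, h4⟩
      refine ⟨⟨⟨?_, ?_⟩, fun h => h2 (hsub h), fun h => h3 (hsub h)⟩, h4⟩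
      · rcases h1 with h1 | h1
        · exact h1
        · exact absurd h1 (hnw g h4)
      · rintro rfl
        rcases hxv with ⟨h, _⟩ | ⟨h, _⟩
        · exact h2 (h ▸ hx)
        · exact h3 (h ▸ hx)
  · intro d R hd
    have hx1 : sd x (src e) ≤ 1 := by
      rcases hxv with ⟨h, _⟩ | ⟨h, _⟩
      · exact end_near (Or.inl h)
      · exact end_near (Or.inr h)
    exact nx_of hD hx1 (face_near hy).1 (clu_mono hFB hx) (dclu_anti hBG hyc) hd

theorem badW_sub {D : Dm} (hD : D.Ok) {ρ : ℕ} {F B G : Finset Edg} (hFB : F ⊆ B) (hBG : B ⊆ G)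
    (hG : G ⊆ D.edges) (h : BadW D ρ F G) :
    ∃ e ∈ D.edges, e ∈ G ∧ e ∉ F ∧
      (∀ m : ℕ, 1 ≤ m → (m : ℤ) + 2 ≤ D.bd (src e) → m + 1 ≤ ρ → XD e m ↑F ↑G) ∧
      (∀ d R : ℕ, 1 ≤ d → NX D (src e) d R B) := by
  obtain ⟨e, heG, heF, x, y, z, hxe, hyz, hx, hyc, hz, w, hw, hzw⟩ := h
  have hye : y = dsrc e ∨ y = dtgt e := hyz.imp And.left And.left
  have hze : z = dsrc e ∨ z = dtgt e := (hyz.imp And.right And.right).symm
  refine ⟨e, hG heG, heG, fun h => heF (Or.inl h), ?_, ?_⟩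
  · intro m hm hmj hmρ
    have hm0 : (1 : ℤ) ≤ m := by exact_mod_cast hm
    have hcs : sd (dsrc e) (src e) ≤ 1 := (face_near (Or.inl rfl)).1
    have hin : ∀ g : Edg, dl g ∈ blk (dsrc e) m → g ∈ D.edges ∧ g ∉ D.wir := by
      intro g hg
      have h1 := (blk_iff.1 hg).2
      rw [tgt_dl] at h1
      have h2 : sd (src g) (src e) ≤ m + 1 := by
        rw [sd_le_iff] at h1 hcs ⊢
        have e1 : (dtgt g).1 = (src g).1 := rfl
        have e2 : (dtgt g).2 = (src g).2 := rfl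
        omega
      have h3 := bd_near (D := D) h2
      refine ⟨edges_of_bd (by omega), fun hw => ?_⟩
      have := bd_wir hw
      omega
    have hsub : CB (dsrc e) m (dl '' (↑G : Set Edg)ᶜ \ {dl e}) y ⊆ D.dclu G := by
      intro u hu
      have h1 : Reach (dl '' (↑D.edges \ D.cfg G : Set Edg)) y u := by
        refine Reach.mono ?_ hu
        rintro _ ⟨⟨⟨g, hg1, rfl⟩, _⟩, hg3⟩
        obtain ⟨h2, h3⟩ := hin g hg3
        exact ⟨g, ⟨h2, fun h => h.elim hg1 h3⟩, rfl⟩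
      rw [reach_dl] at h1
      obtain ⟨g, hg, hgy⟩ := hyc
      exact ⟨g, hg, hgy.trans h1⟩
    unfold XD XE
    rw [src_dl]
    refine ⟨y, z, ?_, fun h => hz (hsub h), ?_, ?_⟩
    · unfold En
      rw [src_dl, tgt_dl]
      rcases hyz with ⟨h1, h2⟩ | ⟨h1, h2⟩
      · exact Or.inl ⟨h1, h2⟩
      · exact Or.inr ⟨h1, h2⟩
    · obtain ⟨g0, hg0, hg0y⟩ := hyc
      have h1 : Reach (dl '' (↑D.edges \ D.cfg G : Set Edg)) y g0 := reach_dl.2 hg0y.symm
      have h2 : (m : ℤ) ≤ sd g0 (dsrc e) := by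
        have h3 : (m : ℤ) + 2 ≤ sd g0 (src e) := outer_far hg0 hmj
        rw [le_sd_iff] at h3 ⊢
        rw [sd_le_iff] at hcs
        omega
      obtain ⟨w', hw'1, hw'2⟩ := exitBox (c := dsrc e) (m := m) h2 h1
        ((face_near hye).2.trans hm0)
      refine ⟨w', hw'1, Reach.mono ?_ hw'2⟩
      rintro _ ⟨⟨g, ⟨_, hg2⟩, rfl⟩, hg3⟩
      refine ⟨⟨⟨g, fun h => hg2 (Or.inl h), rfl⟩, ?_⟩, hg3⟩
      intro h
      have : g = e := dl.injective h
      exact hg2 (Or.inl (this ▸ heG))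
    · have h1 : Reach (dl '' {g | g ∈ D.edges ∧ g ∉ D.cfg F ∧ dsrc g ∉ D.dclu G ∧
          dtgt g ∉ D.dclu G}) z w := reach_dl.2 hzw
      have h2 : (m : ℤ) ≤ sd w (dsrc e) := by
        have h3 := (face_near hze).2
        rw [le_sd_iff] at hw ⊢
        rw [sd_le_iff] at h3
        have : (m : ℤ) + 1 ≤ ρ := by exact_mod_cast hmρ
        omega
      obtain ⟨w', hw'1, hw'2⟩ := exitBox (c := dsrc e) (m := m) h2 h1
        ((face_near hze).2.trans hm0)
      refine ⟨w', hw'1, Reach.mono ?_ hw'2⟩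
      rintro _ ⟨⟨g, ⟨hg1, hg2, hg3, hg4⟩, rfl⟩, hg5⟩
      refine ⟨⟨⟨⟨g, fun h => hg2 (Or.inl h), rfl⟩, ?_⟩, ?_, ?_⟩, hg5⟩
      · intro h
        have hge : g = e := dl.injective h
        rw [hge] at hg3 hg4
        rcases hye with h | h
        · exact hg3 (h ▸ hyc)
        · exact hg4 (h ▸ hyc)
      · rw [src_dl]; exact fun h => hg3 (hsub h)
      · rw [tgt_dl]; exact fun h => hg4 (hsub h)
  · intro d R hd
    exact nx_of hD (end_near hxe) (face_near hye).1 (clu_mono hFB hx) (dclu_anti hBG hyc) hd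

/-! ### No excursion is longer than the rectangle -/

/-- The vertices and faces of the rectangle and of its boundary. -/
def Reg (D : Dm) (u : Vtx) : Prop := inR (D.l - 1) D.r (-1) D.h u

theorem reg_sd {D : Dm} {u v : Vtx} (hu : Reg D u) (hv : Reg D v) :
    sd u v ≤ max (D.r - D.l + 1) (D.h + 1) := by
  obtain ⟨h1, h2⟩ := hu
  obtain ⟨h3, h4⟩ := hv
  have h5 := le_max_left (D.r - D.l + 1) (D.h + 1)
  have h6 := le_max_right (D.r - D.l + 1) (D.h + 1)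
  rw [sd_le_iff]
  omega

theorem reg_edge {D : Dm} {g : Edg} (h : g ∈ D.edges) : Reg D (src g) ∧ Reg D (tgt g) ∧
    Reg D (dsrc g) ∧ Reg D (dtgt g) := by
  obtain ⟨x, y, _ | _⟩ := g
  · simp only [Dm.edges, mem_RE_false] at h
    simp only [Reg, inR, src_mk, tgt_false, dsrc_false, dtgt_mk]
    omega
  · simp only [Dm.edges, mem_RE_true] at h
    simp only [Reg, inR, src_mk, tgt_true, dsrc_true, dtgt_mk]
    omega

theorem wir_edges {D : Dm} (hD : D.Ok) {g : Edg} (h : g ∈ D.wir) : g ∈ D.edges := by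
  obtain ⟨h1, h2, h3, h4, h5⟩ := hD
  obtain ⟨x, y, b⟩ := g
  rcases h with ⟨hb, h⟩ | ⟨hb, h⟩ | ⟨hb, h⟩ <;> simp only at hb h <;> subst hb
  · simp only [Dm.edges, mem_RE_true]; omega
  · simp only [Dm.edges, mem_RE_false]; omega
  · simp only [Dm.edges, mem_RE_true]; omega

theorem reg_reach {D : Dm} {H : Set Edg} (hH : H ⊆ ↑D.edges) {v w : Vtx} (hv : Reg D v)
    (h : Reach H v w) : Reg D w := by
  induction h with
  | refl => exact hv
  | tail _ hs _ =>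
    obtain ⟨g, hg, ⟨_, h2⟩ | ⟨h1, _⟩⟩ := hs
    · rw [← h2]; exact (reg_edge (hH hg)).2.1
    · rw [← h1]; exact (reg_edge (hH hg)).1

theorem reg_dreach {D : Dm} {H : Set Edg} (hH : H ⊆ ↑D.edges) {v w : Vtx} (hv : Reg D v)
    (h : DReach H v w) : Reg D w := by
  induction h with
  | refl => exact hv
  | tail _ hs _ =>
    obtain ⟨g, hg, ⟨_, h2⟩ | ⟨h1, _⟩⟩ := hs
    · rw [← h2]; exact (reg_edge (hH hg)).2.2.2
    · rw [← h1]; exact (reg_edge (hH hg)).2.2.1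

theorem badV_le {D : Dm} (hD : D.Ok) {ρ : ℕ} {F G : Finset Edg} (hG : G ⊆ D.edges)
    (h : BadV D ρ F G) : (ρ : ℤ) ≤ max (D.r - D.l + 1) (D.h + 1) := by
  obtain ⟨e, heG, _, x, v, y, hxv, _, _, _, _, w, hw, hvw⟩ := h
  have hv : Reg D v := by
    rcases hxv with ⟨_, h⟩ | ⟨_, h⟩
    · rw [h]; exact (reg_edge (hG heG)).2.1
    · rw [h]; exact (reg_edge (hG heG)).1
  have hw' : Reg D w := by
    refine reg_reach ?_ hv hvw
    rintro g ⟨h1 | h1, _⟩
    · exact hG h1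
    · exact wir_edges hD h1
  exact hw.trans (reg_sd hv hw')

theorem badW_le {D : Dm} {ρ : ℕ} {F G : Finset Edg} (hG : G ⊆ D.edges)
    (h : BadW D ρ F G) : (ρ : ℤ) ≤ max (D.r - D.l + 1) (D.h + 1) := by
  obtain ⟨e, heG, _, x, y, z, _, hyz, _, _, _, w, hw, hzw⟩ := h
  have hz : Reg D z := by
    rcases hyz with ⟨_, h⟩ | ⟨_, h⟩
    · rw [h]; exact (reg_edge (hG heG)).2.2.2
    · rw [h]; exact (reg_edge (hG heG)).2.2.1
  have hw' : Reg D w := by
    refine reg_dreach ?_ hz hzw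
    rintro g ⟨h1, _⟩
    exact h1
  exact hw.trans (reg_sd hz hw')

theorem badV_mono {D : Dm} {ρ ρ' : ℕ} (h : ρ' ≤ ρ) {F G : Finset Edg} (hb : BadV D ρ F G) :
    BadV D ρ' F G := by
  obtain ⟨e, heG, heF, x, v, y, hxv, hy, hx, hv, hyc, w, hw, hvw⟩ := hb
  exact ⟨e, heG, heF, x, v, y, hxv, hy, hx, hv, hyc, w, le_trans (by exact_mod_cast h) hw, hvw⟩

theorem badW_mono {D : Dm} {ρ ρ' : ℕ} (h : ρ' ≤ ρ) {F G : Finset Edg} (hb : BadW D ρ F G) :
    BadW D ρ' F G := by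
  obtain ⟨e, heG, heF, x, y, z, hxe, hyz, hx, hyc, hz, w, hw, hzw⟩ := hb
  exact ⟨e, heG, heF, x, y, z, hxe, hyz, hx, hyc, hz, w, le_trans (by exact_mod_cast h) hw, hzw⟩

end Pool.Agent.N144.EW
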