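import Pool.Agent.N144.EW.Prob

/-!
Project EW, part 6 (helper144): the sums over the edges of the rectangle.
-/

set_option autoImplicit false

namespace Pool.Agent.N144.EW

open H974 H12S H389NS H984N H984P H342P Finset
open Pool.Agent.N116.EW

/-! ### One-dimensional sums -/

theorem sum_rpow {a : ℝ} (h0 : 0 ≤ a) (h1 : a < 1) (N : ℕ) :
    ∑ s ∈ range N, ((s : ℝ) + 1) ^ (-a) ≤ (N : ℝ) ^ (1 - a) / (1 - a) := by
  have ha : 0 < 1 - a := by linarith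
  induction N with
  | zero => simp [Real.zero_rpow ha.ne']
  | succ N ih =>
    rw [Finset.sum_range_succ]
    have hN : (0 : ℝ) < (N : ℝ) + 1 := by positivity
    have hb : ((N : ℝ) / (N + 1)) ^ (1 - a) ≤ 1 - (1 - a) / (N + 1) := by
      have h2 : (-1 : ℝ) ≤ -(1 / ((N : ℝ) + 1)) := by
        rw [neg_le_neg_iff, div_le_one hN]
        have : (0 : ℝ) ≤ N := by positivity
        linarith
      have h3 := rpow_one_add_le_one_add_mul_self h2 ha.le (by linarith : 1 - a ≤ 1)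
      have e1 : 1 + -(1 / ((N : ℝ) + 1)) = (N : ℝ) / (N + 1) := by field_simp; ring
      rw [e1] at h3
      refine h3.trans (le_of_eq ?_)
      field_simp
      ring
    have e2 : (N : ℝ) ^ (1 - a) = ((N : ℝ) / (N + 1)) ^ (1 - a) * ((N : ℝ) + 1) ^ (1 - a) := by
      rw [← Real.mul_rpow (by positivity) hN.le, div_mul_cancel₀ _ hN.ne']
    have e3 : ((N : ℝ) + 1) ^ (-a) = ((N : ℝ) + 1) ^ (1 - a) / ((N : ℝ) + 1) := by
      rw [show -a = (1 - a) - 1 by ring, Real.rpow_sub_one hN.ne']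
    have hp : 0 < ((N : ℝ) + 1) ^ (1 - a) := Real.rpow_pos_of_pos hN _
    have h4 : (N : ℝ) ^ (1 - a) + (1 - a) * ((N : ℝ) + 1) ^ (-a) ≤ ((N : ℝ) + 1) ^ (1 - a) := by
      rw [e2, e3]
      have h5 := mul_le_mul_of_nonneg_right hb hp.le
      calc ((N : ℝ) / (N + 1)) ^ (1 - a) * ((N : ℝ) + 1) ^ (1 - a) +
          (1 - a) * (((N : ℝ) + 1) ^ (1 - a) / ((N : ℝ) + 1))
          ≤ (1 - (1 - a) / (N + 1)) * ((N : ℝ) + 1) ^ (1 - a) +
            (1 - a) * (((N : ℝ) + 1) ^ (1 - a) / ((N : ℝ) + 1)) := by linarith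
        _ = ((N : ℝ) + 1) ^ (1 - a) := by field_simp; ring
    push_cast
    rw [le_div_iff₀ ha] at ih ⊢
    nlinarith

/-- `f(s) = (s + 1)^(-11/12)`. -/
noncomputable def ff (s : ℕ) : ℝ := ((s : ℝ) + 1) ^ (-(11 / 12 : ℝ))

/-- `g(s) = (s + 1)^(-1/3)`. -/
noncomputable def gg (s : ℕ) : ℝ := ((s : ℝ) + 1) ^ (-(1 / 3 : ℝ))

theorem ff_nonneg (s : ℕ) : 0 ≤ ff s := by unfold ff; positivity

theorem gg_nonneg (s : ℕ) : 0 ≤ gg s := by unfold gg; positivity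

theorem gg_anti {s t : ℕ} (h : s ≤ t) : gg t ≤ gg s := by
  unfold gg
  apply Real.rpow_le_rpow_of_nonpos (by positivity) _ (by norm_num)
  have : (s : ℝ) ≤ t := by exact_mod_cast h
  linarith

theorem sum_ff (N : ℕ) : ∑ s ∈ range N, ff s ≤ 12 * (N : ℝ) ^ (1 / 12 : ℝ) := by
  have := sum_rpow (a := 11 / 12) (by norm_num) (by norm_num) N
  unfold ff
  refine this.trans (le_of_eq ?_)
  norm_num
  ring

theorem sum_gg (N : ℕ) : ∑ s ∈ range N, gg s ≤ 3 / 2 * (N : ℝ) ^ (2 / 3 : ℝ) := by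
  have := sum_rpow (a := 1 / 3) (by norm_num) (by norm_num) N
  unfold gg
  refine this.trans (le_of_eq ?_)
  norm_num
  ring

theorem sum_inj {α : Type*} [DecidableEq α] (I : Finset α) (P : α → Prop) [DecidablePred P]
    (k : α → ℕ) (N : ℕ) (hk : ∀ y ∈ I, P y → k y < N)
    (hinj : ∀ y ∈ I, ∀ y' ∈ I, k y = k y' → P y → P y' → y = y') (f : ℕ → ℝ) (hf : ∀ s, 0 ≤ f s) :
    ∑ y ∈ I, (if P y then f (k y) else 0) ≤ ∑ s ∈ range N, f s := by
  rw [← Finset.sum_filter]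
  have h1 : ∑ y ∈ I.filter P, f (k y) = ∑ s ∈ (I.filter P).image k, f s := by
    rw [Finset.sum_image]
    intro y hy y' hy' h
    rw [Finset.mem_coe, Finset.mem_filter] at hy hy'
    exact hinj y hy.1 y' hy'.1 h hy.2 hy'.2
  rw [h1]
  apply Finset.sum_le_sum_of_subset_of_nonneg
  · intro s hs
    obtain ⟨y, hy, rfl⟩ := Finset.mem_image.1 hs
    rw [Finset.mem_filter] at hy
    exact Finset.mem_range.2 (hk y hy.1 hy.2)
  · intro s _ _
    exact hf s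

theorem sum_abs {a p q : ℤ} {N : ℕ} (hp : p ≤ a) (hq : a ≤ q) (hN : q - p < N) :
    ∑ y ∈ Icc p q, gg (y - a).natAbs ≤ 3 * (N : ℝ) ^ (2 / 3 : ℝ) := by
  have h1 : ∑ y ∈ Icc p q, gg (y - a).natAbs ≤
      ∑ y ∈ Icc p q, (if a ≤ y then gg (y - a).natAbs else 0) +
      ∑ y ∈ Icc p q, (if y ≤ a then gg (y - a).natAbs else 0) := by
    rw [← Finset.sum_add_distrib]
    apply Finset.sum_le_sum
    intro y _
    have := gg_nonneg (y - a).natAbs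
    rcases le_total a y with h | h
    · rw [if_pos h]
      split_ifs <;> linarith
    · rw [if_pos h]
      split_ifs <;> linarith
  have h2 : ∑ y ∈ Icc p q, (if a ≤ y then gg (y - a).natAbs else 0) ≤ ∑ s ∈ range N, gg s := by
    refine sum_inj _ (fun y => a ≤ y) (fun y => (y - a).natAbs) N ?_ ?_ gg gg_nonneg
    · intro y hy hay
      rw [Finset.mem_Icc] at hy
      omega
    · intro y _ y' _ h h3 h4
      omega
  have h3 : ∑ y ∈ Icc p q, (if y ≤ a then gg (y - a).natAbs else 0) ≤ ∑ s ∈ range N, gg s := by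
    refine sum_inj _ (fun y => y ≤ a) (fun y => (y - a).natAbs) N ?_ ?_ gg gg_nonneg
    · intro y hy hay
      rw [Finset.mem_Icc] at hy
      omega
    · intro y _ y' _ h h3 h4
      omega
  have h4 := sum_gg N
  linarith

/-! ### The special points -/

/-- The corners of the rectangle and the ends of the path. -/
def pts (D : Dm) : Fin 6 → ℤ × ℤ :=
  ![(D.l, 0), (D.r, 0), (D.l, D.h), (D.r, D.h), (D.t, D.h), (0, 0)]

theorem min_cases' (a b : ℤ) : min a b = a ∨ min a b = b := min_choice a b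

theorem qd_ex (D : Dm) (z : Vtx) : ∃ i, qd D z = sd z (pts D i) := by
  unfold qd
  rcases min_choice (min (min (sd z (D.l, 0)) (sd z (D.r, 0)))
    (min (sd z (D.l, D.h)) (sd z (D.r, D.h)))) (min (sd z (D.t, D.h)) (sd z (0, 0))) with h | h
  · rw [h]
    rcases min_choice (min (sd z (D.l, 0)) (sd z (D.r, 0)))
      (min (sd z (D.l, D.h)) (sd z (D.r, D.h))) with h | h
    · rw [h]
      rcases min_choice (sd z (D.l, 0)) (sd z (D.r, 0)) with h | h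
      · rw [h]; exact ⟨0, rfl⟩
      · rw [h]; exact ⟨1, rfl⟩
    · rw [h]
      rcases min_choice (sd z (D.l, D.h)) (sd z (D.r, D.h)) with h | h
      · rw [h]; exact ⟨2, rfl⟩
      · rw [h]; exact ⟨3, rfl⟩
  · rw [h]
    rcases min_choice (sd z (D.t, D.h)) (sd z (0, 0)) with h | h
    · rw [h]; exact ⟨4, rfl⟩
    · rw [h]; exact ⟨5, rfl⟩

theorem natAbs_le_sd (z p : Vtx) : (z.1 - p.1).natAbs ≤ (sd z p).toNat ∧
    (z.2 - p.2).natAbs ≤ (sd z p).toNat := by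
  have h := (sd_le_iff (u := z) (c := p)).1 le_rfl
  constructor <;> omega

theorem gg_qd (D : Dm) (z : Vtx) :
    gg (qd D z).toNat ≤ ∑ i, gg (z.1 - (pts D i).1).natAbs ∧
    gg (qd D z).toNat ≤ ∑ i, gg (z.2 - (pts D i).2).natAbs := by
  obtain ⟨i, hi⟩ := qd_ex D z
  obtain ⟨h1, h2⟩ := natAbs_le_sd z (pts D i)
  rw [hi]
  constructor
  · refine (gg_anti h1).trans ?_
    exact Finset.single_le_sum (f := fun i => gg (z.1 - (pts D i).1).natAbs)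
      (fun j _ => gg_nonneg _) (Finset.mem_univ i)
  · refine (gg_anti h2).trans ?_
    exact Finset.single_le_sum (f := fun i => gg (z.2 - (pts D i).2).natAbs)
      (fun j _ => gg_nonneg _) (Finset.mem_univ i)

theorem pts_in {D : Dm} (hD : D.Ok) (i : Fin 6) : inR D.l D.r 0 D.h (pts D i) := by
  obtain ⟨h1, h2, h3, h4, h5⟩ := hD
  fin_cases i <;> simp [pts, inR] <;> omega

/-! ### The weight -/

/-- The weight of an edge whose first end is `z`. -/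
noncomputable def WW (D : Dm) (ρ : ℕ) (z : Vtx) : ℝ :=
  if (D.bd z).toNat < ρ then ff (D.bd z).toNat * ((ρ : ℝ) ^ (-(1 / 3 : ℝ)) + gg (qd D z).toNat)
  else (ρ : ℝ) ^ (-(5 / 4 : ℝ))

theorem WW_nonneg (D : Dm) (ρ : ℕ) (z : Vtx) : 0 ≤ WW D ρ z := by
  unfold WW
  have := ff_nonneg (D.bd z).toNat
  have := gg_nonneg (qd D z).toNat
  split_ifs <;> positivity

/-- The contribution of a side. -/
noncomputable def sf (ρ : ℕ) (k : ℤ) : ℝ := if k.toNat < ρ then ff k.toNat else 0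

theorem sf_nonneg (ρ : ℕ) (k : ℤ) : 0 ≤ sf ρ k := by
  unfold sf
  split_ifs
  · exact ff_nonneg _
  · exact le_rfl

/-- The factor along the side. -/
noncomputable def al (D : Dm) (ρ : ℕ) (c : ℤ × ℤ → ℤ) (y : ℤ) : ℝ :=
  (ρ : ℝ) ^ (-(1 / 3 : ℝ)) + ∑ i, gg (y - c (pts D i)).natAbs

theorem al_nonneg (D : Dm) (ρ : ℕ) (c : ℤ × ℤ → ℤ) (y : ℤ) : 0 ≤ al D ρ c y := by
  unfold al
  have : 0 ≤ ∑ i, gg (y - c (pts D i)).natAbs := Finset.sum_nonneg fun i _ => gg_nonneg _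
  positivity

theorem WW_le (D : Dm) (ρ : ℕ) (z : Vtx) :
    WW D ρ z ≤ (ρ : ℝ) ^ (-(5 / 4 : ℝ)) +
      (sf ρ (z.1 - D.l) + sf ρ (D.r - z.1)) * al D ρ Prod.snd z.2 +
      (sf ρ z.2 + sf ρ (D.h - z.2)) * al D ρ Prod.fst z.1 := by
  have n1 := sf_nonneg ρ (z.1 - D.l)
  have n2 := sf_nonneg ρ (D.r - z.1)
  have n3 := sf_nonneg ρ z.2
  have n4 := sf_nonneg ρ (D.h - z.2)
  have n5 := al_nonneg D ρ Prod.snd z.2
  have n6 := al_nonneg D ρ Prod.fst z.1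
  have n7 : 0 ≤ (ρ : ℝ) ^ (-(5 / 4 : ℝ)) := by positivity
  by_cases h : (D.bd z).toNat < ρ
  · have e : WW D ρ z = ff (D.bd z).toNat *
        ((ρ : ℝ) ^ (-(1 / 3 : ℝ)) + gg (qd D z).toNat) := by
      unfold WW; rw [if_pos h]
    obtain ⟨q1, q2⟩ := gg_qd D z
    have a1 : ((ρ : ℝ) ^ (-(1 / 3 : ℝ)) + gg (qd D z).toNat) ≤ al D ρ Prod.fst z.1 := by
      unfold al; linarith
    have a2 : ((ρ : ℝ) ^ (-(1 / 3 : ℝ)) + gg (qd D z).toNat) ≤ al D ρ Prod.snd z.2 := by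
      unfold al; linarith
    have hff := ff_nonneg (D.bd z).toNat
    have m1 := mul_nonneg n1 n5
    have m2 := mul_nonneg n2 n5
    have m3 := mul_nonneg n3 n6
    have m4 := mul_nonneg n4 n6
    have hsf : ∀ k : ℤ, D.bd z = k → sf ρ k = ff (D.bd z).toNat := by
      intro k hk
      unfold sf
      rw [← hk, if_pos h]
    rw [e]
    unfold Dm.bd at hsf
    rcases min_choice (min (z.1 - D.l) (D.r - z.1)) (min z.2 (D.h - z.2)) with h1 | h1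
    · rcases min_choice (z.1 - D.l) (D.r - z.1) with h2 | h2
      · have := hsf _ (h1.trans h2)
        have h3 := mul_le_mul_of_nonneg_left a2 hff
        unfold Dm.bd at h3
        rw [← this] at h3
        unfold Dm.bd
        rw [← this]
        nlinarith
      · have := hsf _ (h1.trans h2)
        have h3 := mul_le_mul_of_nonneg_left a2 hff
        unfold Dm.bd at h3
        rw [← this] at h3
        unfold Dm.bd
        rw [← this]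
        nlinarith
    · rcases min_choice z.2 (D.h - z.2) with h2 | h2
      · have := hsf _ (h1.trans h2)
        have h3 := mul_le_mul_of_nonneg_left a1 hff
        unfold Dm.bd at h3
        rw [← this] at h3
        unfold Dm.bd
        rw [← this]
        nlinarith
      · have := hsf _ (h1.trans h2)
        have h3 := mul_le_mul_of_nonneg_left a1 hff
        unfold Dm.bd at h3
        rw [← this] at h3
        unfold Dm.bd
        rw [← this]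
        nlinarith
  · unfold WW
    rw [if_neg h]
    have m1 := mul_nonneg (add_nonneg n1 n2) n5
    have m2 := mul_nonneg (add_nonneg n3 n4) n6
    linarith

theorem sum_sf {ρ : ℕ} {p q : ℤ} (k : ℤ → ℤ) (hk : ∀ x ∈ Icc p q, 0 ≤ k x)
    (hinj : ∀ x y, k x = k y → x = y) :
    ∑ x ∈ Icc p q, sf ρ (k x) ≤ 12 * (ρ : ℝ) ^ (1 / 12 : ℝ) := by
  refine le_trans ?_ (sum_ff ρ)
  unfold sf
  refine sum_inj _ (fun x => (k x).toNat < ρ) (fun x => (k x).toNat) ρ (fun _ _ h => h) ?_ ff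
    ff_nonneg
  intro x hx y hy h _ _
  have h1 := hk x hx
  have h2 := hk y hy
  apply hinj
  omega

theorem rho_pow {n : ℝ} {ρ : ℕ} (hn : 1 ≤ n) (hρ : 1 ≤ ρ) (hρn : (ρ : ℝ) ≤ n) :
    n ^ (2 / 3 : ℝ) ≤ n * (ρ : ℝ) ^ (-(1 / 3 : ℝ)) := by
  have hρ0 : (0 : ℝ) < ρ := by exact_mod_cast hρ
  have e : n ^ (2 / 3 : ℝ) = n * n ^ (-(1 / 3 : ℝ)) := by
    rw [← Real.rpow_one_add' (by linarith) (by norm_num)]
    norm_num
  rw [e]
  exact mul_le_mul_of_nonneg_left (Real.rpow_le_rpow_of_nonpos hρ0 hρn (by norm_num)) (by linarith)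

theorem sum_al {D : Dm} (hD : D.Ok) {n : ℝ} {ρ : ℕ} (hn : 1 ≤ n) (hρ : 1 ≤ ρ)
    (hρn : (ρ : ℝ) ≤ n) (c : ℤ × ℤ → ℤ) {p q : ℤ} (hpq : p ≤ q) (hqn : ((q - p : ℤ) : ℝ) ≤ n)
    (hc : ∀ i, p ≤ c (pts D i) ∧ c (pts D i) ≤ q) :
    ∑ y ∈ Icc p q, al D ρ c y ≤ 38 * (n * (ρ : ℝ) ^ (-(1 / 3 : ℝ))) := by
  obtain ⟨N, hN⟩ : ∃ N : ℕ, (N : ℤ) = q - p + 1 := ⟨(q - p + 1).toNat, by omega⟩
  have hNr : (N : ℝ) ≤ 2 * n := by
    have : (N : ℝ) = ((q - p : ℤ) : ℝ) + 1 := by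
      have : ((N : ℤ) : ℝ) = ((q - p + 1 : ℤ) : ℝ) := by rw [hN]
      push_cast at this ⊢
      linarith
    linarith
  have hcard : ((Icc p q).card : ℝ) = N := by
    rw [Int.card_Icc]
    have : (q + 1 - p).toNat = N := by omega
    rw [this]
  unfold al
  rw [Finset.sum_add_distrib, Finset.sum_const, nsmul_eq_mul, hcard, Finset.sum_comm]
  have h1 : ∑ i, ∑ y ∈ Icc p q, gg (y - c (pts D i)).natAbs ≤
      ∑ _i : Fin 6, 3 * (N : ℝ) ^ (2 / 3 : ℝ) := by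
    apply Finset.sum_le_sum
    intro i _
    exact sum_abs (hc i).1 (hc i).2 (by omega)
  rw [Finset.sum_const, Finset.card_univ, Fintype.card_fin, nsmul_eq_mul] at h1
  have h2 : (N : ℝ) ^ (2 / 3 : ℝ) ≤ 2 * n ^ (2 / 3 : ℝ) := by
    calc (N : ℝ) ^ (2 / 3 : ℝ) ≤ (2 * n) ^ (2 / 3 : ℝ) :=
          Real.rpow_le_rpow (by positivity) hNr (by norm_num)
      _ = 2 ^ (2 / 3 : ℝ) * n ^ (2 / 3 : ℝ) := Real.mul_rpow (by norm_num) (by linarith)
      _ ≤ 2 * n ^ (2 / 3 : ℝ) := by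
          refine mul_le_mul_of_nonneg_right ?_ (by positivity)
          calc (2 : ℝ) ^ (2 / 3 : ℝ) ≤ 2 ^ (1 : ℝ) :=
                Real.rpow_le_rpow_of_exponent_le (by norm_num) (by norm_num)
            _ = 2 := Real.rpow_one 2
  have h3 := rho_pow hn hρ hρn
  have h4 : (0 : ℝ) ≤ (ρ : ℝ) ^ (-(1 / 3 : ℝ)) := by positivity
  have h5 : (N : ℝ) * (ρ : ℝ) ^ (-(1 / 3 : ℝ)) ≤ 2 * n * (ρ : ℝ) ^ (-(1 / 3 : ℝ)) :=
    mul_le_mul_of_nonneg_right hNr h4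
  push_cast at h1
  nlinarith

theorem weight_sum {D : Dm} {κ n : ℝ} (hn : 1 ≤ n) (hs : D.Shape κ n) {ρ : ℕ} (hρ : 1 ≤ ρ)
    (hρn : (ρ : ℝ) ≤ n) :
    ∑ e ∈ D.edges, WW D ρ (src e) ≤ 3656 * (n ^ 2 * (ρ : ℝ) ^ (-(5 / 4 : ℝ))) := by
  have hD := hs.ok
  obtain ⟨hl, hr, hh, hlt, htr⟩ := id hD
  have hρ0 : (0 : ℝ) < ρ := by exact_mod_cast hρ
  -- from edges to vertices
  have h1 : ∑ e ∈ D.edges, WW D ρ (src e) ≤
      2 * ∑ x ∈ Icc D.l D.r, ∑ y ∈ Icc 0 D.h, WW D ρ (x, y) := by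
    have hsub : D.edges ⊆ Icc D.l D.r ×ˢ (Icc 0 D.h ×ˢ univ) := by
      unfold Dm.edges RE
      exact Finset.filter_subset _ _
    refine (Finset.sum_le_sum_of_subset_of_nonneg hsub fun e _ _ => WW_nonneg _ _ _).trans ?_
    rw [Finset.sum_product, Finset.mul_sum]
    refine le_of_eq (Finset.sum_congr rfl fun x _ => ?_)
    rw [Finset.sum_product, Finset.mul_sum]
    refine Finset.sum_congr rfl fun y _ => ?_
    rw [Fintype.sum_bool]
    simp only [src_mk]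
    ring
  -- the vertices
  have e1 : ∑ x ∈ Icc D.l D.r, ∑ y ∈ Icc 0 D.h, WW D ρ (x, y) ≤
      ∑ x ∈ Icc D.l D.r, ∑ y ∈ Icc 0 D.h, ((ρ : ℝ) ^ (-(5 / 4 : ℝ)) +
      (sf ρ (x - D.l) + sf ρ (D.r - x)) * al D ρ Prod.snd y +
      (sf ρ y + sf ρ (D.h - y)) * al D ρ Prod.fst x) :=
    Finset.sum_le_sum fun x _ => Finset.sum_le_sum fun y _ => WW_le D ρ (x, y)
  have e2 : ∑ x ∈ Icc D.l D.r, ∑ y ∈ Icc 0 D.h, ((ρ : ℝ) ^ (-(5 / 4 : ℝ)) +
      (sf ρ (x - D.l) + sf ρ (D.r - x)) * al D ρ Prod.snd y +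
      (sf ρ y + sf ρ (D.h - y)) * al D ρ Prod.fst x) =
      ((Icc D.l D.r).card : ℝ) * ((Icc 0 D.h).card * (ρ : ℝ) ^ (-(5 / 4 : ℝ))) +
      (∑ x ∈ Icc D.l D.r, (sf ρ (x - D.l) + sf ρ (D.r - x))) *
        (∑ y ∈ Icc 0 D.h, al D ρ Prod.snd y) +
      (∑ y ∈ Icc 0 D.h, (sf ρ y + sf ρ (D.h - y))) *
        (∑ x ∈ Icc D.l D.r, al D ρ Prod.fst x) := by
    have f1 : ∀ x ∈ Icc D.l D.r, ∑ y ∈ Icc 0 D.h, ((ρ : ℝ) ^ (-(5 / 4 : ℝ)) +
      (sf ρ (x - D.l) + sf ρ (D.r - x)) * al D ρ Prod.snd y +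
      (sf ρ y + sf ρ (D.h - y)) * al D ρ Prod.fst x) =
        (Icc 0 D.h).card * (ρ : ℝ) ^ (-(5 / 4 : ℝ)) +
        (sf ρ (x - D.l) + sf ρ (D.r - x)) * (∑ y ∈ Icc 0 D.h, al D ρ Prod.snd y) +
        (∑ y ∈ Icc 0 D.h, (sf ρ y + sf ρ (D.h - y))) * al D ρ Prod.fst x := by
      intro x _
      rw [Finset.sum_add_distrib, Finset.sum_add_distrib, Finset.sum_const, nsmul_eq_mul,
        ← Finset.mul_sum, ← Finset.sum_mul]
    rw [Finset.sum_congr rfl f1, Finset.sum_add_distrib, Finset.sum_add_distrib, Finset.sum_const,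
      nsmul_eq_mul, ← Finset.sum_mul, ← Finset.mul_sum]
  have hw : ((D.r - D.l : ℤ) : ℝ) ≤ n := hs.w_le
  have hh' : ((D.h - 0 : ℤ) : ℝ) ≤ n := by
    have := hs.h_le
    push_cast
    linarith
  have c1 : ((Icc D.l D.r).card : ℝ) ≤ 2 * n := by
    rw [Int.card_Icc]
    have h2 : (((D.r + 1 - D.l).toNat : ℤ) : ℝ) = ((D.r + 1 - D.l : ℤ) : ℝ) := by
      rw [Int.toNat_of_nonneg (by omega)]
    have h3 : (((D.r + 1 - D.l).toNat : ℕ) : ℝ) = ((D.r - D.l : ℤ) : ℝ) + 1 := by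
      push_cast at h2 ⊢
      linarith
    rw [h3]
    linarith
  have c2 : ((Icc 0 D.h).card : ℝ) ≤ 2 * n := by
    rw [Int.card_Icc]
    have h2 : (((D.h + 1 - 0).toNat : ℤ) : ℝ) = ((D.h + 1 - 0 : ℤ) : ℝ) := by
      rw [Int.toNat_of_nonneg (by omega)]
    have h3 : (((D.h + 1 - 0).toNat : ℕ) : ℝ) = ((D.h - 0 : ℤ) : ℝ) + 1 := by
      push_cast at h2 ⊢
      linarith
    rw [h3]
    linarith
  have s1 : ∑ x ∈ Icc D.l D.r, (sf ρ (x - D.l) + sf ρ (D.r - x)) ≤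
      24 * (ρ : ℝ) ^ (1 / 12 : ℝ) := by
    rw [Finset.sum_add_distrib]
    have h2 := sum_sf (ρ := ρ) (p := D.l) (q := D.r) (fun x => x - D.l)
      (fun x hx => by rw [Finset.mem_Icc] at hx; omega)
      (fun x y h => by omega)
    have h3 := sum_sf (ρ := ρ) (p := D.l) (q := D.r) (fun x => D.r - x)
      (fun x hx => by rw [Finset.mem_Icc] at hx; omega)
      (fun x y h => by omega)
    linarith
  have s2 : ∑ y ∈ Icc 0 D.h, (sf ρ y + sf ρ (D.h - y)) ≤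
      24 * (ρ : ℝ) ^ (1 / 12 : ℝ) := by
    rw [Finset.sum_add_distrib]
    have h2 := sum_sf (ρ := ρ) (p := 0) (q := D.h) (fun x => x)
      (fun x hx => by rw [Finset.mem_Icc] at hx; omega)
      (fun x y h => by simpa using h)
    have h3 := sum_sf (ρ := ρ) (p := 0) (q := D.h) (fun x => D.h - x)
      (fun x hx => by rw [Finset.mem_Icc] at hx; omega)
      (fun x y h => by omega)
    linarith
  have t1 : ∑ y ∈ Icc 0 D.h, al D ρ Prod.snd y ≤ 38 * (n * (ρ : ℝ) ^ (-(1 / 3 : ℝ))) :=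
    sum_al hD hn hρ hρn Prod.snd hh.le hh' fun i => (pts_in hD i).2
  have t2 : ∑ x ∈ Icc D.l D.r, al D ρ Prod.fst x ≤ 38 * (n * (ρ : ℝ) ^ (-(1 / 3 : ℝ))) :=
    sum_al hD hn hρ hρn Prod.fst (by omega) hw fun i => (pts_in hD i).1
  have t1' : 0 ≤ ∑ y ∈ Icc 0 D.h, al D ρ Prod.snd y :=
    Finset.sum_nonneg fun y _ => al_nonneg _ _ _ _
  have t2' : 0 ≤ ∑ x ∈ Icc D.l D.r, al D ρ Prod.fst x :=
    Finset.sum_nonneg fun y _ => al_nonneg _ _ _ _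
  have u1 := mul_le_mul s1 t1 t1' (by positivity)
  have u2 := mul_le_mul s2 t2 t2' (by positivity)
  have u3 : ((Icc D.l D.r).card : ℝ) * ((Icc 0 D.h).card * (ρ : ℝ) ^ (-(5 / 4 : ℝ))) ≤
      4 * (n ^ 2 * (ρ : ℝ) ^ (-(5 / 4 : ℝ))) := by
    have h2 : (0 : ℝ) ≤ (ρ : ℝ) ^ (-(5 / 4 : ℝ)) := by positivity
    have h3 : ((Icc D.l D.r).card : ℝ) * ((Icc 0 D.h).card : ℝ) ≤ (2 * n) * (2 * n) :=
      mul_le_mul c1 c2 (by positivity) (by positivity)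
    nlinarith
  have u4 : 24 * (ρ : ℝ) ^ (1 / 12 : ℝ) * (38 * (n * (ρ : ℝ) ^ (-(1 / 3 : ℝ)))) ≤
      912 * (n ^ 2 * (ρ : ℝ) ^ (-(5 / 4 : ℝ))) := by
    have h2 : (ρ : ℝ) ^ (1 / 12 : ℝ) * (ρ : ℝ) ^ (-(1 / 3 : ℝ)) =
        (ρ : ℝ) * (ρ : ℝ) ^ (-(5 / 4 : ℝ)) := by
      rw [← Real.rpow_add hρ0, ← Real.rpow_one_add' hρ0.le (by norm_num)]
      norm_num
    have h3 : (0 : ℝ) ≤ (ρ : ℝ) ^ (-(5 / 4 : ℝ)) := by positivity
    have h4 : (ρ : ℝ) * (ρ : ℝ) ^ (-(5 / 4 : ℝ)) ≤ n * (ρ : ℝ) ^ (-(5 / 4 : ℝ)) :=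
      mul_le_mul_of_nonneg_right hρn h3
    calc 24 * (ρ : ℝ) ^ (1 / 12 : ℝ) * (38 * (n * (ρ : ℝ) ^ (-(1 / 3 : ℝ))))
        = 912 * (n * ((ρ : ℝ) ^ (1 / 12 : ℝ) * (ρ : ℝ) ^ (-(1 / 3 : ℝ)))) := by ring
      _ = 912 * (n * ((ρ : ℝ) * (ρ : ℝ) ^ (-(5 / 4 : ℝ)))) := by rw [h2]
      _ ≤ 912 * (n * (n * (ρ : ℝ) ^ (-(5 / 4 : ℝ)))) := by
          refine mul_le_mul_of_nonneg_left (mul_le_mul_of_nonneg_left h4 (by linarith))
            (by norm_num)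
      _ = 912 * (n ^ 2 * (ρ : ℝ) ^ (-(5 / 4 : ℝ))) := by ring
  rw [e2] at e1
  linarith

end Pool.Agent.N144.EW
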