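import Pool.Agent.N144.EW.DetA

/-!
Project EW, part 6 (helper144): probabilistic part. Independence of the flip of an edge, of the
arms at this edge and of the arms near the boundary; union bound.
-/

set_option autoImplicit false

namespace Pool.Agent.N144.EW

open H974 H12S H389NS H984N H984P H342P Finset
open Pool.Agent.N116.EW

/-! ### Marks -/

theorem mem_CE {S : Finset Edg} {i : Edg × Bool} : i ∈ CE S ↔ i.1 ∈ S := by
  simp [CE]

theorem mem_ba {K : Finset (Edg × Bool)} {e : Edg} : e ∈ ba K ↔ (e, true) ∈ K := by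
  unfold ba
  rw [Finset.mem_image]
  constructor
  · rintro ⟨⟨e', b⟩, h1, h2⟩
    rw [Finset.mem_filter] at h1
    obtain ⟨h1, h3⟩ := h1
    simp only at h2 h3
    subst h2; subst h3
    exact h1
  · intro h
    exact ⟨(e, true), Finset.mem_filter.2 ⟨h, rfl⟩, rfl⟩

theorem mem_fl {K : Finset (Edg × Bool)} {e : Edg} : e ∈ N116.EW.fl K ↔ (e, false) ∈ K := by
  unfold N116.EW.fl
  rw [Finset.mem_image]
  constructor
  · rintro ⟨⟨e', b⟩, h1, h2⟩
    rw [Finset.mem_filter] at h1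
    obtain ⟨h1, h3⟩ := h1
    simp only at h2 h3
    subst h2; subst h3
    exact h1
  · intro h
    exact ⟨(e, false), Finset.mem_filter.2 ⟨h, rfl⟩, rfl⟩

theorem lo_sub_ba (b : Bool) (K : Finset (Edg × Bool)) : lo b K ⊆ ba K := by
  cases b
  · exact Finset.sdiff_subset
  · exact Finset.Subset.refl _

theorem ba_sub_up (b : Bool) (K : Finset (Edg × Bool)) : ba K ⊆ up b K := by
  cases b
  · exact Finset.Subset.refl _
  · exact Finset.subset_union_left

theorem up_sub {b : Bool} {S : Finset Edg} {K : Finset (Edg × Bool)} (hK : K ⊆ CE S) :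
    up b K ⊆ S := by
  intro e he
  cases b
  · have : e ∈ ba K := he
    exact mem_CE.1 (hK (mem_ba.1 this))
  · have : e ∈ ba K ∪ N116.EW.fl K := he
    rcases Finset.mem_union.1 this with h | h
    · exact mem_CE.1 (hK (mem_ba.1 h))
    · exact mem_CE.1 (hK (mem_fl.1 h))

theorem mem_lo {b : Bool} {K : Finset (Edg × Bool)} {e : Edg} :
    e ∈ lo b K ↔ (e, true) ∈ K ∧ (b = true ∨ (e, false) ∉ K) := by
  cases b
  · change e ∈ ba K \ N116.EW.fl K ↔ _
    rw [Finset.mem_sdiff, mem_ba, mem_fl]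
    simp
  · change e ∈ ba K ↔ _
    rw [mem_ba]
    simp

theorem mem_up {b : Bool} {K : Finset (Edg × Bool)} {e : Edg} :
    e ∈ up b K ↔ (e, true) ∈ K ∨ (b = true ∧ (e, false) ∈ K) := by
  cases b
  · change e ∈ ba K ↔ _
    rw [mem_ba]
    simp
  · change e ∈ ba K ∪ N116.EW.fl K ↔ _
    rw [Finset.mem_union, mem_ba, mem_fl]
    simp

theorem cw_ok {η : ℝ} (h0 : 0 ≤ η) (h1 : η ≤ 1) : Ok (cw η) := by
  intro i
  unfold cw
  split_ifs
  · norm_num
  · exact ⟨h0, h1⟩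

/-- The base configuration is critical. -/
theorem marg (η : ℝ) (S : Finset Edg) (A : Finset Edg → Prop) :
    Pr (cw η) (CE S) (fun K => A (ba K)) = Pr (fun _ => (1 / 2 : ℝ)) S A := by
  set φ : Edg ↪ Edg × Bool := ⟨fun e => (e, true), fun a b h => (Prod.mk.inj h).1⟩ with hφ
  have hsub : S.map φ ⊆ CE S := by
    intro i hi
    obtain ⟨e, he, rfl⟩ := Finset.mem_map.1 hi
    exact mem_CE.2 he
  have h1 : Pr (cw η) (CE S) (fun K => A (ba K)) = Pr (cw η) (S.map φ) (fun K => A (ba K)) := by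
    apply Pr_local hsub
    intro K hK
    have : ba (K ∩ S.map φ) = ba K := by
      ext e
      rw [mem_ba, mem_ba, Finset.mem_inter]
      constructor
      · exact fun h => h.1
      · exact fun h => ⟨h, Finset.mem_map.2 ⟨e, mem_CE.1 (hK h), rfl⟩⟩
    rw [this]
  rw [h1, Pr_map]
  have h2 : (fun e => cw η (φ e)) = fun _ => (1 / 2 : ℝ) := by
    funext e
    simp [cw, hφ]
  rw [h2]
  apply Pr_congr
  intro F _
  have : ba (F.map φ) = F := by
    ext e
    rw [mem_ba, Finset.mem_map]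
    constructor
    · rintro ⟨e', he', h⟩
      have : e' = e := (Prod.mk.inj h).1
      exact this ▸ he'
    · exact fun h => ⟨e, h, rfl⟩
  rw [this]

/-- The flip of an edge. -/
def Flp (b : Bool) (e : Edg) (K : Finset (Edg × Bool)) : Prop := e ∈ up b K ∧ e ∉ lo b K

theorem pr_flip {η : ℝ} (b : Bool) {S : Finset Edg} {e : Edg} (he : e ∈ S) :
    Pr (cw η) (CE S) (Flp b e) = η / 2 := by
  have hsub : CE {e} ⊆ CE S := by
    intro i hi
    rw [mem_CE] at hi ⊢
    rw [Finset.mem_singleton.1 hi]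
    exact he
  have h1 : Pr (cw η) (CE S) (Flp b e) = Pr (cw η) (CE {e}) (Flp b e) := by
    apply Pr_local hsub
    intro K _
    unfold Flp
    rw [mem_up, mem_lo, mem_up, mem_lo]
    have h2 : ∀ c, (e, c) ∈ K ∩ CE {e} ↔ (e, c) ∈ K := by
      intro c
      rw [Finset.mem_inter, mem_CE]
      simp
    rw [h2, h2]
  rw [h1]
  have hCE : CE {e} = insert (e, true) (insert (e, false) ∅) := by
    ext ⟨e', c⟩
    rw [mem_CE]
    cases c <;> simp
  have hne : (e, true) ∉ (insert (e, false) (∅ : Finset (Edg × Bool))) := by simp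
  have hne' : (e, false) ∉ (∅ : Finset (Edg × Bool)) := by simp
  unfold Pr
  rw [hCE, Ex_insert _ hne, Ex_insert _ hne', Ex_insert _ hne', Ex_empty, Ex_empty, Ex_empty,
    Ex_empty]
  have c1 : cw η (e, true) = 1 / 2 := by simp [cw]
  have c2 : cw η (e, false) = η := by simp [cw]
  rw [c1, c2]
  cases b
  · have i1 : ind (Flp false e (insert (e, true) (insert (e, false) ∅))) = 1 := by
      apply ind_of
      unfold Flp
      rw [mem_up, mem_lo]
      simp
    have i2 : ind (Flp false e (insert (e, true) ∅)) = 0 := by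
      apply ind_not_of
      unfold Flp
      rw [mem_up, mem_lo]
      simp
    have i3 : ind (Flp false e (insert (e, false) ∅)) = 0 := by
      apply ind_not_of
      unfold Flp
      rw [mem_up, mem_lo]
      simp
    have i4 : ind (Flp false e ∅) = 0 := by
      apply ind_not_of
      unfold Flp
      rw [mem_up, mem_lo]
      simp
    rw [i1, i2, i3, i4]
    ring
  · have i1 : ind (Flp true e (insert (e, true) (insert (e, false) ∅))) = 0 := by
      apply ind_not_of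
      unfold Flp
      rw [mem_up, mem_lo]
      simp
    have i2 : ind (Flp true e (insert (e, true) ∅)) = 0 := by
      apply ind_not_of
      unfold Flp
      rw [mem_up, mem_lo]
      simp
    have i3 : ind (Flp true e (insert (e, false) ∅)) = 1 := by
      apply ind_of
      unfold Flp
      rw [mem_up, mem_lo]
      simp
    have i4 : ind (Flp true e ∅) = 0 := by
      apply ind_not_of
      unfold Flp
      rw [mem_up, mem_lo]
      simp
    rw [i1, i2, i3, i4]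
    ring

/-! ### Locality -/

/-- The event looks at the edges near `e` different from `e` only. -/
def Loc (X : Edg → ℕ → Set Edg → Set Edg → Prop) : Prop :=
  ∀ (e : Edg) (m : ℕ) (F F' G G' : Set Edg),
    (∀ g ∈ blk (src e) (m + 2), g ≠ e → (g ∈ F ↔ g ∈ F') ∧ (g ∈ G ↔ g ∈ G')) →
    (X e m F G ↔ X e m F' G')

theorem XE_congr {e : Edg} {m : ℕ} {F F' G G' : Set Edg}
    (h : ∀ g ∈ blk (src e) m, g ≠ e → (g ∈ F ↔ g ∈ F') ∧ (g ∈ G ↔ g ∈ G')) :
    XE e m F G ↔ XE e m F' G' := by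
  have h1 : ∀ x, CB (src e) m (F \ {e}) x = CB (src e) m (F' \ {e}) x := by
    intro x
    unfold CB
    have : ((F \ {e}) ∩ ↑(blk (src e) m) : Set Edg) = (F' \ {e}) ∩ ↑(blk (src e) m) := by
      ext g
      constructor
      · rintro ⟨⟨h2, h3⟩, h4⟩
        exact ⟨⟨(h g h4 h3).1.1 h2, h3⟩, h4⟩
      · rintro ⟨⟨h2, h3⟩, h4⟩
        exact ⟨⟨(h g h4 h3).1.2 h2, h3⟩, h4⟩
    rw [this]
  have h2 : ∀ x, ({g | g ∈ G \ {e} ∧ src g ∉ CB (src e) m (F \ {e}) x ∧
      tgt g ∉ CB (src e) m (F \ {e}) x} ∩ ↑(blk (src e) m) : Set Edg) =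
      {g | g ∈ G' \ {e} ∧ src g ∉ CB (src e) m (F' \ {e}) x ∧
      tgt g ∉ CB (src e) m (F' \ {e}) x} ∩ ↑(blk (src e) m) := by
    intro x
    rw [h1 x]
    ext g
    constructor
    · rintro ⟨⟨⟨h2, h3⟩, h5⟩, h4⟩
      exact ⟨⟨⟨(h g h4 h3).2.1 h2, h3⟩, h5⟩, h4⟩
    · rintro ⟨⟨⟨h2, h3⟩, h5⟩, h4⟩
      exact ⟨⟨⟨(h g h4 h3).2.2 h2, h3⟩, h5⟩, h4⟩
  unfold XE
  constructor
  · rintro ⟨x, v, a, b, c, w, hw, d⟩
    refine ⟨x, v, a, (h1 x) ▸ b, ?_, w, hw, (h2 x) ▸ d⟩
    obtain ⟨w', hw', d'⟩ := c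
    exact ⟨w', hw', (h1 x) ▸ d'⟩
  · rintro ⟨x, v, a, b, c, w, hw, d⟩
    refine ⟨x, v, a, (h1 x).symm ▸ b, ?_, w, hw, (h2 x).symm ▸ d⟩
    obtain ⟨w', hw', d'⟩ := c
    exact ⟨w', hw', (h1 x).symm ▸ d'⟩

theorem loc_XE : Loc XE := by
  intro e m F F' G G' h
  apply XE_congr
  intro g hg
  apply h g
  rw [blk_iff] at hg ⊢
  push_cast
  omega

theorem dblk {e g : Edg} {m : ℕ} (h : dl g ∈ blk (src (dl e)) m) :
    g ∈ blk (src e) (m + 2) := by
  rw [blk_iff, src_dl, tgt_dl, src_dl] at h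
  have h1 := (face_near (e := e) (Or.inl rfl)).1
  rw [blk_iff]
  rw [sd_le_iff] at h1
  rw [sd_le_iff, sd_le_iff] at h
  rw [sd_le_iff, sd_le_iff]
  obtain ⟨x, y, _ | _⟩ := g
  · simp only [dsrc_false, dtgt_mk, src_mk, tgt_false] at h ⊢
    push_cast
    omega
  · simp only [dsrc_true, dtgt_mk, src_mk, tgt_true] at h ⊢
    push_cast
    omega

theorem loc_XD : Loc XD := by
  intro e m F F' G G' h
  unfold XD
  apply XE_congr
  intro g' hg' hne
  obtain ⟨g, rfl⟩ : ∃ g, dl g = g' := ⟨dl.symm g', dl.apply_symm_apply g'⟩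
  have hg := dblk hg'
  have hge : g ≠ e := fun h => hne (by rw [h])
  obtain ⟨h1, h2⟩ := h g hg hge
  have hmem : ∀ T : Set Edg, dl g ∈ dl '' Tᶜ ↔ g ∉ T := by
    intro T
    constructor
    · rintro ⟨g'', hg'', h3⟩
      exact dl.injective h3 ▸ hg''
    · exact fun h3 => ⟨g, h3, rfl⟩
  rw [hmem, hmem, hmem, hmem]
  exact ⟨not_congr h2, not_congr h1⟩

/-- Locality in terms of the marks. -/
theorem loc_marks {X : Edg → ℕ → Set Edg → Set Edg → Prop} (hX : Loc X) {b : Bool} {e : Edg}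
    {m : ℕ} {T : Finset Edg} (hT : ∀ g ∈ blk (src e) (m + 2), g ≠ e → g ∈ T)
    (K : Finset (Edg × Bool)) :
    X e m ↑(lo b K) ↑(up b K) ↔ X e m ↑(lo b (K ∩ CE T)) ↑(up b (K ∩ CE T)) := by
  apply hX
  intro g hg hge
  have hgT := hT g hg hge
  have h2 : ∀ c, (g, c) ∈ K ∩ CE T ↔ (g, c) ∈ K := by
    intro c
    rw [Finset.mem_inter, mem_CE]
    exact and_iff_left hgT
  simp only [Finset.mem_coe]
  rw [mem_lo, mem_lo, mem_up, mem_up, h2, h2]
  exact ⟨Iff.rfl, Iff.rfl⟩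

theorem NX_congr {D : Dm} {z : Vtx} {d R : ℕ} {F F' : Finset Edg}
    (h : ∀ g, g ∉ blk z d → (g ∈ F ↔ g ∈ F')) : NX D z d R F ↔ NX D z d R F' := by
  have h1 : (↑F \ ↑(blk z d) : Set Edg) = ↑F' \ ↑(blk z d) := by
    ext g
    constructor
    · rintro ⟨h1, h2⟩; exact ⟨(h g h2).1 h1, h2⟩
    · rintro ⟨h1, h2⟩; exact ⟨(h g h2).2 h1, h2⟩
  have h2 : {e | e ∈ D.edges ∧ e ∉ D.cfg F ∧ e ∉ blk z d} =
      {e | e ∈ D.edges ∧ e ∉ D.cfg F' ∧ e ∉ blk z d} := by
    ext g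
    constructor
    · rintro ⟨h1, h2, h3⟩
      exact ⟨h1, fun h4 => h2 (h4.imp (h g h3).2 id), h3⟩
    · rintro ⟨h1, h2, h3⟩
      exact ⟨h1, fun h4 => h2 (h4.imp (h g h3).1 id), h3⟩
  unfold NX
  rw [h1, h2]

/-- Three independent events at an edge. -/
theorem pr_three {X : Edg → ℕ → Set Edg → Set Edg → Prop} (hX : Loc X) {D : Dm} {η : ℝ}
    (h0 : 0 ≤ η) (b : Bool) {e : Edg} (he : e ∈ D.edges) {m d R : ℕ} (hm : 1 ≤ m → m + 2 ≤ d)
    (hmD : 1 ≤ m → ∀ g ∈ blk (src e) (m + 2), g ∈ D.edges) (hd : 1 ≤ d) {a c : ℝ}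
    (hPX : 1 ≤ m → PC b η D.edges (fun F G => X e m ↑F ↑G) ≤ a) (h1a : m = 0 → 1 ≤ a)
    (hPN : d ≤ R → Pr (fun _ => (1 / 2 : ℝ)) D.edges (NX D (src e) d R) ≤ c)
    (h1c : ¬ d ≤ R → 1 ≤ c) (h1 : η ≤ 1) :
    Pr (cw η) (CE D.edges) (fun K => Flp b e K ∧ (1 ≤ m → X e m ↑(lo b K) ↑(up b K)) ∧
      (d ≤ R → NX D (src e) d R (ba K))) ≤ η / 2 * (a * c) := by
  have hok := cw_ok h0 h1
  have heb : e ∈ blk (src e) d := by
    rw [blk_iff]
    have h2 : sd (src e) (src e) ≤ 1 := end_near (Or.inl rfl)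
    have h3 : sd (tgt e) (src e) ≤ 1 := end_near (Or.inr rfl)
    have h4 : (1 : ℤ) ≤ d := by exact_mod_cast hd
    exact ⟨h2.trans h4, h3.trans h4⟩
  -- the sets of marks
  set T1 : Finset (Edg × Bool) := CE {e} with hT1
  set T2 : Finset (Edg × Bool) := CE ((D.edges ∩ blk (src e) d) \ {e}) with hT2
  set T3 : Finset (Edg × Bool) := CE (D.edges \ blk (src e) d) with hT3
  have hCEmono : ∀ {S T : Finset Edg}, S ⊆ T → CE S ⊆ CE T := fun h i hi =>
    mem_CE.2 (h (mem_CE.1 hi))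
  have s1 : T1 ⊆ CE D.edges := hCEmono (Finset.singleton_subset_iff.2 he)
  have s2 : T2 ⊆ CE D.edges := hCEmono (Finset.sdiff_subset.trans Finset.inter_subset_left)
  have s3 : T3 ⊆ CE D.edges := hCEmono Finset.sdiff_subset
  have d23 : Disjoint T2 T3 := by
    rw [Finset.disjoint_left]
    intro i h2 h3
    rw [hT2, mem_CE, Finset.mem_sdiff, Finset.mem_inter] at h2
    rw [hT3, mem_CE, Finset.mem_sdiff] at h3
    exact h3.2 h2.1.2
  have d1 : Disjoint T1 (T2 ∪ T3) := by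
    rw [Finset.disjoint_left]
    intro i h1 h2
    rw [hT1, mem_CE, Finset.mem_singleton] at h1
    rw [Finset.mem_union] at h2
    rcases h2 with h2 | h2
    · rw [hT2, mem_CE, Finset.mem_sdiff] at h2
      exact h2.2 (Finset.mem_singleton.2 h1)
    · rw [hT3, mem_CE, Finset.mem_sdiff, h1] at h2
      exact h2.2 heb
  -- locality of the events
  have lA : ∀ K, K ⊆ CE D.edges → (Flp b e K ↔ Flp b e (K ∩ T1)) := by
    intro K _
    unfold Flp
    rw [mem_up, mem_lo, mem_up, mem_lo]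
    have h2 : ∀ c, (e, c) ∈ K ∩ T1 ↔ (e, c) ∈ K := by
      intro c
      rw [Finset.mem_inter, hT1, mem_CE]
      simp
    rw [h2, h2]
  have lX : ∀ T : Finset (Edg × Bool), T2 ⊆ T → ∀ K, K ⊆ CE D.edges →
      ((1 ≤ m → X e m ↑(lo b K) ↑(up b K)) ↔
        (1 ≤ m → X e m ↑(lo b (K ∩ T)) ↑(up b (K ∩ T)))) := by
    intro T hT K _
    refine forall_congr' fun hm1 => ?_
    apply hX
    intro g hg hge
    have hgT : ∀ c, (g, c) ∈ T := by
      intro c
      apply hT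
      rw [hT2, mem_CE, Finset.mem_sdiff, Finset.mem_inter]
      refine ⟨⟨hmD hm1 g hg, ?_⟩, by simpa using hge⟩
      rw [blk_iff] at hg ⊢
      have := hm hm1
      have h3 : ((m + 2 : ℕ) : ℤ) ≤ d := by exact_mod_cast this
      exact ⟨hg.1.trans h3, hg.2.trans h3⟩
    have h2 : ∀ c, (g, c) ∈ K ∩ T ↔ (g, c) ∈ K := by
      intro c
      rw [Finset.mem_inter]
      exact and_iff_left (hgT c)
    simp only [Finset.mem_coe]
    rw [mem_lo, mem_lo, mem_up, mem_up, h2, h2]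
    exact ⟨Iff.rfl, Iff.rfl⟩
  have lN : ∀ T : Finset (Edg × Bool), T3 ⊆ T → ∀ K, K ⊆ CE D.edges →
      ((d ≤ R → NX D (src e) d R (ba K)) ↔ (d ≤ R → NX D (src e) d R (ba (K ∩ T)))) := by
    intro T hT K hK
    refine forall_congr' fun _ => ?_
    apply NX_congr
    intro g hg
    rw [mem_ba, mem_ba, Finset.mem_inter]
    constructor
    · intro h
      refine ⟨h, hT ?_⟩
      rw [hT3, mem_CE, Finset.mem_sdiff]
      exact ⟨mem_CE.1 (hK h), hg⟩
    · exact fun h => h.1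
  -- the product
  have p1 : Pr (cw η) (CE D.edges) (fun K => Flp b e K ∧
      ((1 ≤ m → X e m ↑(lo b K) ↑(up b K)) ∧ (d ≤ R → NX D (src e) d R (ba K)))) =
      Pr (cw η) (CE D.edges) (Flp b e) * Pr (cw η) (CE D.edges) (fun K =>
        (1 ≤ m → X e m ↑(lo b K) ↑(up b K)) ∧ (d ≤ R → NX D (src e) d R (ba K))) := by
    refine Pr_indep s1 (Finset.union_subset s2 s3) d1 lA ?_
    intro K hK
    exact and_congr (lX _ Finset.subset_union_left K hK) (lN _ Finset.subset_union_right K hK)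
  have p2 : Pr (cw η) (CE D.edges) (fun K =>
        (1 ≤ m → X e m ↑(lo b K) ↑(up b K)) ∧ (d ≤ R → NX D (src e) d R (ba K))) =
      Pr (cw η) (CE D.edges) (fun K => 1 ≤ m → X e m ↑(lo b K) ↑(up b K)) *
      Pr (cw η) (CE D.edges) (fun K => d ≤ R → NX D (src e) d R (ba K)) :=
    Pr_indep s2 s3 d23 (lX _ (Finset.Subset.refl _)) (lN _ (Finset.Subset.refl _))
  rw [p1, p2, pr_flip b he]
  have qX : Pr (cw η) (CE D.edges) (fun K => 1 ≤ m → X e m ↑(lo b K) ↑(up b K)) ≤ a := by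
    by_cases hm1 : 1 ≤ m
    · refine le_trans (le_of_eq ?_) (hPX hm1)
      unfold PC
      apply Pr_congr
      intro K _
      exact ⟨fun h => h hm1, fun h _ => h⟩
    · exact (Pr_le_one hok _ _).trans (h1a (by omega))
  have qN : Pr (cw η) (CE D.edges) (fun K => d ≤ R → NX D (src e) d R (ba K)) ≤ c := by
    by_cases hR : d ≤ R
    · refine le_trans (le_of_eq ?_) (hPN hR)
      rw [← marg η]
      apply Pr_congr
      intro K _
      exact ⟨fun h => h hR, fun h _ => h⟩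
    · exact (Pr_le_one hok _ _).trans (h1c hR)
  have nX : 0 ≤ Pr (cw η) (CE D.edges) (fun K => 1 ≤ m → X e m ↑(lo b K) ↑(up b K)) :=
    Pr_nonneg hok _ _
  have nN : 0 ≤ Pr (cw η) (CE D.edges) (fun K => d ≤ R → NX D (src e) d R (ba K)) :=
    Pr_nonneg hok _ _
  exact mul_le_mul_of_nonneg_left (mul_le_mul qX qN nN (nX.trans qX)) (by positivity)

end Pool.Agent.N144.EW
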